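import Pool.Agent.W2helper42.TQ.Stm2

/-!
# The rings `A[y_1, ..., y_r] / (y_1 q_1 + ... + y_r q_r - 1)` are smooth over `A`
-/

set_option autoImplicit false

namespace Pool.Agent.W2helper42.TQ

open MvPolynomial

noncomputable section

theorem formallySmooth_lin {A : Type} [CommRing A] {r : ℕ} (q : Fin r → A) :
    Algebra.FormallySmooth A (MvPolynomial (Fin r) A ⧸ Ideal.span {lin q (-1)}) := by
  refine Algebra.FormallySmooth.of_comp_surjective ?_
  intro B _ _ I hI f
  have hc : ∀ i : Fin r, ∃ b : B, Ideal.Quotient.mk I b =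
      f (Ideal.Quotient.mk _ (X i)) := fun i => Ideal.Quotient.mk_surjective _
  choose b hb using hc
  set ε : B := ∑ i, algebraMap A B (q i) * b i - 1 with hε
  have hεI : ε ∈ I := by
    rw [← Ideal.Quotient.eq_zero_iff_mem, hε, map_sub, map_sum, map_one]
    have h1 : f (Ideal.Quotient.mk (Ideal.span {lin q (-1)})
        (∑ i, MvPolynomial.C (q i) * MvPolynomial.X i + MvPolynomial.C (-1))) = 0 := by
      have h0 : Ideal.Quotient.mk (Ideal.span {lin q (-1)}) (lin q (-1)) = 0 :=
        Ideal.Quotient.eq_zero_iff_mem.mpr (Ideal.mem_span_singleton_self _)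
      exact (congrArg f h0).trans (map_zero f)
    rw [map_add, map_sum, map_add, map_sum] at h1
    have h2 : f (Ideal.Quotient.mk (Ideal.span {lin q (-1)}) (C (-1))) = -1 := by
      have : (C (-1) : MvPolynomial (Fin r) A) = -1 := by rw [map_neg, map_one]
      rw [this, map_neg, map_one, map_neg, map_one]
    rw [h2] at h1
    rw [sub_eq_add_neg]
    rw [← h1]
    congr 1
    refine Finset.sum_congr rfl fun i _ => ?_
    rw [map_mul, map_mul, map_mul, hb]
    congr 1
    have h3 : (Ideal.Quotient.mk (Ideal.span {lin q (-1)}) (C (q i)) :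
        MvPolynomial (Fin r) A ⧸ Ideal.span {lin q (-1)}) =
        algebraMap A (MvPolynomial (Fin r) A ⧸ Ideal.span {lin q (-1)}) (q i) := rfl
    rw [h3, AlgHom.commutes]
    rfl
  have hε2 : ε * ε = 0 := by
    have : ε * ε ∈ I ^ 2 := by
      rw [pow_two]; exact Ideal.mul_mem_mul hεI hεI
    rw [hI] at this
    exact (Submodule.mem_bot B).1 this
  have hmk : Ideal.Quotient.mk I ε = 0 := Ideal.Quotient.eq_zero_iff_mem.mpr hεI
  let φ : MvPolynomial (Fin r) A →ₐ[A] B := aeval fun i => b i * (1 - ε)
  have hφ : φ (lin q (-1)) = 0 := by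
    have h1 : φ (lin q (-1)) = (∑ i, algebraMap A B (q i) * b i) * (1 - ε) - 1 := by
      rw [lin, map_add, map_sum, Finset.sum_mul, sub_eq_add_neg]
      congr 1
      · refine Finset.sum_congr rfl fun i _ => ?_
        rw [map_mul]
        change aeval _ (C (q i)) * aeval _ (X i) = _
        rw [aeval_C, aeval_X]; ring
      · change aeval _ (C (-1)) = _
        rw [aeval_C, map_neg, map_one]
    have h2 : ∑ i, algebraMap A B (q i) * b i = 1 + ε := by rw [hε]; ring
    rw [h1, h2]
    linear_combination -hε2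
  have hle : ∀ a ∈ Ideal.span {lin q (-1)}, φ a = 0 := by
    intro a ha
    have : Ideal.span {lin q (-1)} ≤ RingHom.ker φ := by
      rw [Ideal.span_le, Set.singleton_subset_iff]
      exact hφ
    exact this ha
  refine ⟨Ideal.Quotient.liftₐ _ φ hle, ?_⟩
  refine Ideal.Quotient.algHom_ext _ ?_
  refine MvPolynomial.algHom_ext fun i => ?_
  change Ideal.Quotient.mk I (φ (X i)) = f (Ideal.Quotient.mk _ (X i))
  rw [← hb]
  change Ideal.Quotient.mk I (aeval _ (X i)) = _
  rw [aeval_X, map_mul, map_sub, map_one, hmk, sub_zero, mul_one]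

theorem smooth_lin {A : Type} [CommRing A] {r : ℕ} (q : Fin r → A) :
    Algebra.Smooth A (MvPolynomial (Fin r) A ⧸ Ideal.span {lin q (-1)}) where
  formallySmooth := formallySmooth_lin q
  finitePresentation := by
    refine Algebra.FinitePresentation.quotient ?_
    exact Submodule.fg_span_singleton _

theorem smooth_lin' {k : Type} [CommRing k] {n r : ℕ} (q : Fin r → MvPolynomial (Fin n) k) :
    Algebra.Smooth k (MvPolynomial (Fin r) (MvPolynomial (Fin n) k) ⧸ Ideal.span {lin q (-1)}) := by
  have h1 := smooth_lin q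
  have h2 : Algebra.Smooth k (MvPolynomial (Fin n) k) := {}
  exact Algebra.Smooth.comp k (MvPolynomial (Fin n) k) _

end

end Pool.Agent.W2helper42.TQ
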