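import Pool.Agent.W2helper42.TQ.Stm

/-!
# Quadratic equations over rings of dimension at most one: piece BC

Base change of `R[y] / I` to `R / (a)` and to `R[1 / a]`.
-/

set_option autoImplicit false

namespace Pool.Agent.W2helper42.TQ

open MvPolynomial

noncomputable section

/-- `(R[y] / I) / (a) = (R / (a))[y] / I`. -/
theorem bc_quot (R σ : Type) [CommRing R] (I : Ideal (MvPolynomial σ R)) (a : R) :
    Nonempty (((MvPolynomial σ R ⧸ I) ⧸ Ideal.span {Ideal.Quotient.mk I (C a)}) ≃+*
      (MvPolynomial σ (R ⧸ Ideal.span {a}) ⧸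
        I.map (MvPolynomial.map (Ideal.Quotient.mk (Ideal.span {a}))))) := by
  classical
  set m : MvPolynomial σ R →+* MvPolynomial σ (R ⧸ Ideal.span {a}) :=
    MvPolynomial.map (Ideal.Quotient.mk (Ideal.span {a})) with hm
  have hms : Function.Surjective m := MvPolynomial.map_surjective _ Ideal.Quotient.mk_surjective
  have hker : RingHom.ker m = Ideal.span {C a} := by
    rw [hm, MvPolynomial.ker_map, Ideal.mk_ker, Ideal.map_span, Set.image_singleton]
  set ψ : MvPolynomial σ R →+* MvPolynomial σ (R ⧸ Ideal.span {a}) ⧸ I.map m :=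
    (Ideal.Quotient.mk (I.map m)).comp m with hψ
  have hψs : Function.Surjective ψ := Ideal.Quotient.mk_surjective.comp hms
  have hψk : RingHom.ker ψ = I ⊔ Ideal.span {C a} := by
    rw [hψ, RingHom.ker, ← Ideal.comap_comap, ← RingHom.ker, Ideal.mk_ker,
      Ideal.comap_map_of_surjective' m hms, hker]
  have h1 : Ideal.span {Ideal.Quotient.mk I (C a)} =
      (Ideal.span {(C a : MvPolynomial σ R)}).map (Ideal.Quotient.mk I) := by
    rw [Ideal.map_span, Set.image_singleton]
  refine ⟨(Ideal.quotEquivOfEq h1).trans ((DoubleQuot.quotQuotEquivQuotSup I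
    (Ideal.span {(C a : MvPolynomial σ R)})).trans ((Ideal.quotEquivOfEq hψk.symm).trans
      (RingHom.quotientKerEquivOfSurjective hψs)))⟩

/-- Quotients and localisations commute. -/
theorem loc_quot {A B : Type} [CommRing A] [CommRing B] [Algebra A B] (a : A)
    [IsLocalization (Submonoid.powers a) B] (I : Ideal A) :
    Nonempty (Localization.Away (Ideal.Quotient.mk I a) ≃+* (B ⧸ I.map (algebraMap A B))) := by
  let ι : A ⧸ I →+* B ⧸ I.map (algebraMap A B) :=
    Ideal.quotientMap (I.map (algebraMap A B)) (algebraMap A B) Ideal.le_comap_map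
  letI : Algebra (A ⧸ I) (B ⧸ I.map (algebraMap A B)) := ι.toAlgebra
  have h2 : IsLocalization ((Submonoid.powers a).map (Ideal.Quotient.mk I))
      (B ⧸ I.map (algebraMap A B)) := by
    refine IsLocalization.of_surjective (Submonoid.powers a) B (Ideal.Quotient.mk I)
      Ideal.Quotient.mk_surjective
      (Ideal.Quotient.mk (I.map (algebraMap A B))) Ideal.Quotient.mk_surjective ?_ ?_
    · ext x
      rfl
    · rw [Ideal.mk_ker, Ideal.mk_ker]
  have h3 : (Submonoid.powers a).map (Ideal.Quotient.mk I) =
      Submonoid.powers (Ideal.Quotient.mk I a) := Submonoid.map_powers _ _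
  rw [h3] at h2
  exact ⟨(IsLocalization.algEquiv (Submonoid.powers (Ideal.Quotient.mk I a))
    (Localization.Away (Ideal.Quotient.mk I a)) (B ⧸ I.map (algebraMap A B))).toRingEquiv⟩

/-- `(R[y] / I)[1 / a] = R[1 / a][y] / I`. -/
theorem bc_loc (R σ : Type) [CommRing R] (I : Ideal (MvPolynomial σ R)) (a : R) :
    Nonempty (Localization.Away (Ideal.Quotient.mk I (C a)) ≃+*
      (MvPolynomial σ (Localization.Away a) ⧸
        I.map (MvPolynomial.map (algebraMap R (Localization.Away a))))) := by
  letI : Algebra (MvPolynomial σ R) (MvPolynomial σ (Localization.Away a)) :=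
    (MvPolynomial.map (algebraMap R (Localization.Away a))).toAlgebra
  have hloc : IsLocalization ((Submonoid.powers a).map (C (σ := σ)))
      (MvPolynomial σ (Localization.Away a)) :=
    MvPolynomial.isLocalization (σ := σ) (Submonoid.powers a) (Localization.Away a)
  rw [Submonoid.map_powers] at hloc
  exact loc_quot (B := MvPolynomial σ (Localization.Away a)) (C a) I

/-- The piece BC. -/
theorem piece_BC : S_BC := fun R σ _ I a => ⟨bc_quot R σ I a, bc_loc R σ I a⟩

end

end Pool.Agent.W2helper42.TQ
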