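import Mathlib

/-!
# Quadratic equations over rings of dimension at most one: statements of the pieces

`P` is a property of commutative rings of finite type over the field with `p` elements (later: the
conjecture `TB` for the spectrum). We want: if `R` has Krull dimension at most one and `g` is a
polynomial over `R`, in finitely many variables, of total degree at most two, then `R[y] / (g)` has
the property.
-/

set_option autoImplicit false

namespace Pool.Agent.W2helper42.TQ

open MvPolynomial

noncomputable section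

/-- `R` is a ring of finite type over the field with `p` elements. -/
def Fg (p : ℕ) (R : Type) [CommRing R] : Prop :=
  ∃ f : ZMod p →+* R, f.FiniteType

/-- The properties of `P` that are used. -/
structure IsGood (p : ℕ) (P : (R : Type) → [CommRing R] → Prop) : Prop where
  iso : ∀ (R S : Type) [CommRing R] [CommRing S], (R ≃+* S) → P R → P S
  closed : ∀ (R : Type) [CommRing R] (a : R), Fg p R → P R → P (Localization.Away a) →
    P (R ⧸ Ideal.span {a})
  total : ∀ (R : Type) [CommRing R] (a : R), Fg p R → P (R ⧸ Ideal.span {a}) →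
    P (Localization.Away a) → P R
  opened : ∀ (R : Type) [CommRing R] (a : R), Fg p R → P (R ⧸ Ideal.span {a}) → P R →
    P (Localization.Away a)
  poly : ∀ (R : Type) [CommRing R], Fg p R → (P R ↔ P (Polynomial R))
  double : ∀ (R : Type) [CommRing R] (b c : R), Fg p R →
    P (AdjoinRoot (Polynomial.X ^ 2 + Polynomial.C b * Polynomial.X + Polynomial.C c)) → P R
  dim : ∀ (R : Type) [CommRing R], Fg p R → ringKrullDim R ≤ 1 → P R

/-- PIECE FG: permanence of `Fg`. -/
def S_FG : Prop :=
  (∀ (p : ℕ) (R S : Type) [CommRing R] [CommRing S] (f : R →+* S), f.FiniteType → Fg p R →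
    Fg p S) ∧
  (∀ (R S : Type) [CommRing R] [CommRing S] (f : R →+* S), Function.Surjective f →
    f.FiniteType) ∧
  (∀ (R : Type) [CommRing R] (a : R), (algebraMap R (Localization.Away a)).FiniteType) ∧
  (∀ (R : Type) [CommRing R], (Polynomial.C : R →+* Polynomial R).FiniteType) ∧
  (∀ (R σ : Type) [CommRing R] [Finite σ], (C : R →+* MvPolynomial σ R).FiniteType) ∧
  (∀ (R : Type) [CommRing R] (f : Polynomial R), (AdjoinRoot.of f).FiniteType)

/-- PIECE DIM: Krull dimension at most one. -/
def S_DIM : Prop :=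
  (∀ (R S : Type) [CommRing R] [CommRing S], (R ≃+* S) → ringKrullDim R ≤ 1 →
    ringKrullDim S ≤ 1) ∧
  (∀ (R : Type) [CommRing R] (I : Ideal R), ringKrullDim R ≤ 1 → ringKrullDim (R ⧸ I) ≤ 1) ∧
  (∀ (R : Type) [CommRing R] (a : R), ringKrullDim R ≤ 1 →
    ringKrullDim (Localization.Away a) ≤ 1) ∧
  (∀ (R : Type) [CommRing R] (f : Polynomial R), f.Monic → ringKrullDim R ≤ 1 →
    ringKrullDim (AdjoinRoot f) ≤ 1)

/-- PIECE BC: base change of `R[y] / I` to `R / (a)` and to `R[1 / a]`. -/
def S_BC : Prop :=
  ∀ (R σ : Type) [CommRing R] (I : Ideal (MvPolynomial σ R)) (a : R),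
    Nonempty (((MvPolynomial σ R ⧸ I) ⧸ Ideal.span {Ideal.Quotient.mk I (C a)}) ≃+*
      (MvPolynomial σ (R ⧸ Ideal.span {a}) ⧸
        I.map (MvPolynomial.map (Ideal.Quotient.mk (Ideal.span {a}))))) ∧
    Nonempty (Localization.Away (Ideal.Quotient.mk I (C a)) ≃+*
      (MvPolynomial σ (Localization.Away a) ⧸
        I.map (MvPolynomial.map (algebraMap R (Localization.Away a)))))

/-- PIECE DBL: base change of `R[y] / I` to `R[T] / (T ^ 2 + b T + c)`. -/
def S_DBL : Prop :=
  ∀ (R σ : Type) [CommRing R] (I : Ideal (MvPolynomial σ R)) (b c : R),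
    Nonempty (AdjoinRoot (Polynomial.X ^ 2 +
        Polynomial.C (Ideal.Quotient.mk I (C b)) * Polynomial.X +
        Polynomial.C (Ideal.Quotient.mk I (C c))) ≃+*
      (MvPolynomial σ
          (AdjoinRoot (Polynomial.X ^ 2 + Polynomial.C b * Polynomial.X + Polynomial.C c)) ⧸
        I.map (MvPolynomial.map
          (AdjoinRoot.of (Polynomial.X ^ 2 + Polynomial.C b * Polynomial.X + Polynomial.C c)))))

/-- PIECE LIN: the ring `C = B[Y] / (l Y + h)`: `C / (l) = (B / (l, h))[Y]` and
`C[1 / l] = B[1 / l]`. -/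
def S_LIN : Prop :=
  ∀ (B : Type) [CommRing B] (l h : B),
    Nonempty (((Polynomial B ⧸ Ideal.span {Polynomial.C l * Polynomial.X + Polynomial.C h}) ⧸
        Ideal.span {Ideal.Quotient.mk (Ideal.span
          {Polynomial.C l * Polynomial.X + Polynomial.C h}) (Polynomial.C l)}) ≃+*
      Polynomial (B ⧸ Ideal.span {l, h})) ∧
    Nonempty (Localization.Away (Ideal.Quotient.mk (Ideal.span
          {Polynomial.C l * Polynomial.X + Polynomial.C h}) (Polynomial.C l)) ≃+*
      Localization.Away l)

/-- PIECE ELIM: elimination of the variable `Y` by an equation `e Y + m = 0` with a unit `e`. -/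
def S_ELIM : Prop :=
  ∀ (B : Type) [CommRing B] (e e' m : B) (h : Polynomial B), e * e' = 1 →
    Nonempty ((Polynomial B ⧸
        Ideal.span {Polynomial.C e * Polynomial.X + Polynomial.C m, h}) ≃+*
      (B ⧸ Ideal.span {h.eval (-(e' * m))}))

/-- The main theorem of the ring part. -/
def S_Q : Prop :=
  ∀ (p : ℕ) [Fact p.Prime] (P : (R : Type) → [CommRing R] → Prop), IsGood p P →
    ∀ (R σ : Type) [CommRing R] [Finite σ], Fg p R → ringKrullDim R ≤ 1 →
      ∀ g : MvPolynomial σ R, g.totalDegree ≤ 2 → P (MvPolynomial σ R ⧸ Ideal.span {g})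

end

end Pool.Agent.W2helper42.TQ
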