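import Pool.Agent.W2helper42.TQ.Quad
import Pool.Agent.W2helper15.TQ.E

/-!
# Several quadratic equations: the version with weights

`P N` is a property of rings for every `N`; it is inherited by affine lines, and descends from an
affine line with a loss of one in the index `N`.
-/

set_option autoImplicit false

namespace Pool.Agent.W2helper42.TQ

open MvPolynomial Pool.Agent.W2helper84.TQ Pool.Agent.W2helper6.TQ

noncomputable section

/-- The properties that are used. -/
structure Graded (p : ℕ) (P : ℕ → (R : Type) → [CommRing R] → Prop) : Prop where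
  nice : ∀ N, IsNice0 p (P N)
  mono : ∀ N (R : Type) [CommRing R], P N R → P (N + 1) R
  back : ∀ N (R : Type) [CommRing R], Fg p R → P N (Polynomial R) → P (N + 1) R

variable {p d : ℕ} {P : ℕ → (R : Type) → [CommRing R] → Prop}

theorem Graded.mono' (hP : Graded p P) {N M : ℕ} (h : N ≤ M) {R : Type} [CommRing R]
    (hR : P N R) : P M R := by
  induction M, h using Nat.le_induction with
  | base => exact hR
  | succ M _ ih => exact hP.mono M R ih

theorem gtwo {P : (R : Type) → [CommRing R] → Prop} (hP : IsNice0 p P) {A : Type} [CommRing A]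
    (J : Ideal A) (x : A) (hA : Fg p A) (hx : P (W2helper15.TQ.LL A J x)) (h : P (A ⧸ J)) :
    P (W2helper15.TQ.QQ A J x) :=
  hP.closed _ _ (fg_quot hA J) h hx

/-- The induction step. -/
theorem gstep (hP : Graded p P) {B : Type} [CommRing B] (hB : Fg p B) {s : ℕ}
    (q : Fin (s + 1) → B) (h : B) {N : ℕ} (h0 : P N B) (h1 : P N (B ⧸ Ideal.span {q 0}))
    (h2 : P N (MvPolynomial (Fin (s + 1)) B ⧸ Ideal.span {lin q h})) :
      P (N + 1) (MvPolynomial (Fin s) (B ⧸ Ideal.span {q 0}) ⧸
        Ideal.span {lin (fun i : Fin s => Ideal.Quotient.mk (Ideal.span {q 0}) (q i.succ))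
          (Ideal.Quotient.mk (Ideal.span {q 0}) h)}) := by
  have hN := hP.nice N
  obtain ⟨J, hJ⟩ : ∃ J : Ideal (Polynomial (MvPolynomial (Fin s) B)),
      J = Ideal.span {Polynomial.C (C (q 0)) * Polynomial.X +
        Polynomial.C (lin (fun i : Fin s => q i.succ) h)} := ⟨_, rfl⟩
  obtain ⟨eA⟩ : Nonempty ((MvPolynomial (Fin (s + 1)) B ⧸ Ideal.span {lin q h}) ≃+*
      (Polynomial (MvPolynomial (Fin s) B) ⧸ J)) := by
    subst hJ; exact W2helper15.TQ.iso_A q h
  obtain ⟨e1⟩ : Nonempty (W2helper15.TQ.QQ (Polynomial (MvPolynomial (Fin s) B)) J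
      (Polynomial.C (C (q 0))) ≃+*
      Polynomial (MvPolynomial (Fin s) B ⧸ Ideal.span
        {(C (q 0) : MvPolynomial (Fin s) B), lin (fun i : Fin s => q i.succ) h})) := by
    subst hJ; exact (s_LIN (MvPolynomial (Fin s) B) (C (q 0))
      (lin (fun i : Fin s => q i.succ) h)).1
  obtain ⟨e2⟩ : Nonempty (W2helper15.TQ.LL (Polynomial (MvPolynomial (Fin s) B)) J
      (Polynomial.C (C (q 0))) ≃+*
        Localization.Away (C (q 0) : MvPolynomial (Fin s) B)) := by
    subst hJ; exact (s_LIN (MvPolynomial (Fin s) B) (C (q 0))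
      (lin (fun i : Fin s => q i.succ) h)).2
  obtain ⟨eC⟩ := W2helper15.TQ.iso_C (q 0) (fun i : Fin s => q i.succ) h
  obtain ⟨eD⟩ := W2helper15.TQ.iso_D (q 0) s
  have hB1 : Fg p (MvPolynomial (Fin s) B) := fg_mv hB (Fin s)
  have k1 : P N (MvPolynomial (Fin s) B) := p_mv hN hB h0 s
  have k2 : P N (MvPolynomial (Fin s) B ⧸ Ideal.span {(C (q 0) : MvPolynomial (Fin s) B)}) :=
    hN.iso _ _ eD.symm (p_mv hN (fg_quot hB _) h1 s)
  have k3 := hN.iso _ _ e2.symm (hN.opened _ _ hB1 k2 k1)
  have kA : P N (Polynomial (MvPolynomial (Fin s) B) ⧸ J) := hN.iso _ _ eA h2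
  have k4 := gtwo hN J _ (fg_poly hB1) k3 kA
  have k5 : P N (Polynomial (MvPolynomial (Fin s) B ⧸ Ideal.span
        {(C (q 0) : MvPolynomial (Fin s) B), lin (fun i : Fin s => q i.succ) h})) :=
    hN.iso _ _ e1 k4
  have k6 := hP.back N (MvPolynomial (Fin s) B ⧸ Ideal.span
    {(C (q 0) : MvPolynomial (Fin s) B), lin (fun i : Fin s => q i.succ) h}) (fg_quot hB1 _) k5
  exact (hP.nice (N + 1)).iso _ _ eC k6

theorem ghyp (hP : Graded p P) {B : Type} [CommRing B] {s : ℕ} (q : Fin (s + 1) → B)
    (S : Set (Fin s)) {M : ℕ} (h : P M (B ⧸ Ideal.span (q '' (insert 0 (Fin.succ '' S))))) :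
    P M ((B ⧸ Ideal.span {q 0}) ⧸ Ideal.span
      ((fun i : Fin s => Ideal.Quotient.mk (Ideal.span {q 0}) (q i.succ)) '' S)) := by
  obtain ⟨e⟩ := W2helper15.TQ.iso_F (q 0) ((fun i : Fin s => q i.succ) '' S)
  rw [W2helper15.TQ.img_succ, Set.image_image] at e
  exact (hP.nice M).iso _ _ e.symm h

theorem ncard_insert_succ {s : ℕ} (S : Set (Fin s)) :
    (insert 0 (Fin.succ '' S) : Set (Fin (s + 1))).ncard = S.ncard + 1 := by
  rw [Set.ncard_insert_of_notMem ?_ (Set.toFinite _),
    Set.ncard_image_of_injective _ (Fin.succ_injective s)]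
  rintro ⟨i, _, hi⟩
  exact Fin.succ_ne_zero i hi

/-- From the linear equation to the equations. -/
theorem gboth (hP : Graded p P) (s : ℕ) : ∀ (B : Type) [CommRing B] (q : Fin s → B) (h : B)
    (N : ℕ), Fg p B →
    (∀ (S : Set (Fin s)) (M : ℕ), N ≤ M → N + S.ncard ≤ M + 1 → P M (B ⧸ Ideal.span (q '' S))) →
    P N (MvPolynomial (Fin s) B ⧸ Ideal.span {lin q h}) →
      P (N + s) (B ⧸ Ideal.span (Set.range q ∪ {h})) := by
  induction s with
  | zero =>
    intro B _ q h N _ _ hC
    obtain ⟨e⟩ := W2helper15.TQ.iso_zero q h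
    exact (hP.nice _).iso _ _ e hC
  | succ s ih =>
    intro B _ q h N hB hS hC
    have h0 : P N B := by
      have := hS ∅ N le_rfl (by rw [Set.ncard_empty]; omega)
      rw [Set.image_empty, Ideal.span_empty] at this
      exact (hP.nice N).iso _ _ (RingEquiv.quotientBot B) this
    have h1 : P N (B ⧸ Ideal.span {q 0}) := by
      have := hS {0} N le_rfl (by rw [Set.ncard_singleton])
      rwa [Set.image_singleton] at this
    have h2 := gstep hP hB q h h0 h1 hC
    have h3 := ih _ _ _ (N + 1) (fg_quot hB _) (fun S M hM hM2 => ghyp hP q S (hS _ M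
      (by omega) (by rw [ncard_insert_succ]; omega))) h2
    obtain ⟨e⟩ := W2helper15.TQ.iso_F (q 0) (Set.range (fun i : Fin s => q i.succ) ∪ {h})
    have k1 : {q 0} ∪ (Set.range (fun i : Fin s => q i.succ) ∪ {h}) = Set.range q ∪ {h} := by
      rw [← Set.union_assoc, Set.singleton_union]
      congr 1
      exact (Fin.range_fin_succ q).symm
    have k2 : Ideal.Quotient.mk (Ideal.span {q 0}) '' (Set.range (fun i : Fin s => q i.succ) ∪ {h})
        = Set.range (fun i : Fin s => Ideal.Quotient.mk (Ideal.span {q 0}) (q i.succ)) ∪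
          {Ideal.Quotient.mk (Ideal.span {q 0}) h} := by
      rw [Set.image_union, Set.image_singleton, ← Set.range_comp]; rfl
    rw [k1, k2] at e
    have h4 := (hP.nice _).iso _ _ e h3
    rwa [show N + 1 + s = N + (s + 1) from by omega] at h4

/-- Several quadratic equations. -/
theorem gquadrics (hP : Graded p P) (hI : InDim p (P 0) d) {R σ : Type} [CommRing R]
    [Finite σ] (hR : Fg p R) (e : ℕ) (he : ringKrullDim R ≤ e) (s : ℕ) : e + s ≤ d →
    ∀ q : Fin (s + 1) → MvPolynomial σ R, (∀ i, (q i).totalDegree ≤ 2) →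
    P s (MvPolynomial σ R ⧸ Ideal.span (Set.range q)) := by
  classical
  induction s using Nat.strong_induction_on with
  | _ s ih =>
    intro hes q hq
    have hB : Fg p (MvPolynomial σ R) := fg_mv hR σ
    have hed : (e : WithBot ℕ∞) ≤ d := by exact_mod_cast (by omega : e ≤ d)
    have hPB : P 0 (MvPolynomial σ R) := p_mv' (hP.nice 0) hR (hI R hR (he.trans hed)) σ
    have key := gboth hP s (MvPolynomial σ R) (fun i => q i.castSucc) (q (Fin.last s)) 0 hB
    have hr : Set.range (fun i : Fin s => q i.castSucc) ∪ {q (Fin.last s)} = Set.range q := by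
      ext x
      simp only [Set.mem_union, Set.mem_range, Set.mem_singleton_iff]
      constructor
      · rintro (⟨i, rfl⟩ | rfl)
        · exact ⟨_, rfl⟩
        · exact ⟨_, rfl⟩
      · rintro ⟨i, rfl⟩
        refine Fin.lastCases ?_ (fun j => ?_) i
        · exact Or.inr rfl
        · exact Or.inl ⟨j, rfl⟩
    rw [hr, zero_add] at key
    refine key ?_ ?_
    · intro S M _ hM
      obtain ⟨r, f, hfi, hf, hrs⟩ : ∃ (r : ℕ) (f : Fin r → Fin s), Function.Injective f ∧
          Set.range f = S ∧ r = S.ncard := by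
        have hS : S.Finite := Set.toFinite S
        refine ⟨hS.toFinset.card, fun i => (hS.toFinset.equivFin.symm i : Fin s), ?_, ?_, ?_⟩
        · exact Subtype.val_injective.comp (Equiv.injective _)
        · ext x
          simp only [Set.mem_range]
          constructor
          · rintro ⟨i, rfl⟩
            exact hS.mem_toFinset.mp (hS.toFinset.equivFin.symm i).2
          · intro hx
            refine ⟨hS.toFinset.equivFin ⟨x, hS.mem_toFinset.mpr hx⟩, ?_⟩
            rw [Equiv.symm_apply_apply]
        · exact (Set.ncard_eq_toFinset_card S hS).symm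
      have hrs' : r ≤ s := by
        have := Fintype.card_le_of_injective f hfi
        rwa [Fintype.card_fin, Fintype.card_fin] at this
      have hS : (fun i : Fin s => q i.castSucc) '' S =
          Set.range (fun i : Fin r => q (f i).castSucc) := by
        rw [← hf, ← Set.range_comp]; rfl
      rw [hS]
      cases r with
      | zero =>
        have h0 : Set.range (fun i : Fin 0 => q (f i).castSucc) = ∅ := Set.range_eq_empty _
        rw [h0]
        have h1 : Ideal.span (∅ : Set (MvPolynomial σ R)) = ⊥ := Ideal.span_empty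
        rw [h1]
        exact (hP.nice M).iso _ _ (RingEquiv.quotientBot _).symm (hP.mono' (Nat.zero_le M) hPB)
      | succ r =>
        exact hP.mono' (by omega) (ih r (by omega) (by omega) _ (fun i => hq _))
    · refine transport1 (hP.nice 0) (commAlgEquiv R (Fin s) σ).toRingEquiv _ ?_
      refine quadratic (hP.nice 0) hI _ σ (fg_mv hR (Fin s)) ?_ _ ?_
      · have _ := noeth hR
        rw [MvPolynomial.ringKrullDim_of_isNoetherianRing]
        simp only [Nat.card_eq_fintype_card, Fintype.card_fin]
        refine (add_le_add_left he (s : WithBot ℕ∞)).trans ?_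
        exact_mod_cast hes
      · change ((commAlgEquiv R (Fin s) σ) (lin _ _)).totalDegree ≤ 2
        rw [lin, map_add, map_sum]
        refine (totalDegree_add _ _).trans (max_le ?_ ?_)
        · refine (totalDegree_finsetSum _ _).trans (Finset.sup_le fun i _ => ?_)
          rw [map_mul, commAlgEquiv_C, commAlgEquiv_X]
          refine (totalDegree_mul _ _).trans ?_
          have := totalDegree_map' (C : R →+* MvPolynomial (Fin s) R) (hq i.castSucc)
          rw [totalDegree_C]
          omega
        · rw [commAlgEquiv_C]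
          exact totalDegree_map' _ (hq _)

end

end Pool.Agent.W2helper42.TQ
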