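import Pool.Agent.W2helper42.TQ.Stm

/-!
# Second part of the statements: tuples of equations, schemes
-/

set_option autoImplicit false

namespace Pool.Agent.W2helper42.TQ

open AlgebraicGeometry CategoryTheory

noncomputable section

/-- The properties of `P` that are used (no condition on dimensions). -/
structure IsNice (p : ℕ) (P : (R : Type) → [CommRing R] → Prop) : Prop where
  iso : ∀ (R S : Type) [CommRing R] [CommRing S], (R ≃+* S) → P R → P S
  closed : ∀ (R : Type) [CommRing R] (a : R), Fg p R → P R → P (Localization.Away a) →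
    P (R ⧸ Ideal.span {a})
  total : ∀ (R : Type) [CommRing R] (a : R), Fg p R → P (R ⧸ Ideal.span {a}) →
    P (Localization.Away a) → P R
  opened : ∀ (R : Type) [CommRing R] (a : R), Fg p R → P (R ⧸ Ideal.span {a}) → P R →
    P (Localization.Away a)
  poly : ∀ (R : Type) [CommRing R], Fg p R → (P R ↔ P (Polynomial R))
  double : ∀ (R : Type) [CommRing R] (b c : R), Fg p R →
    P (AdjoinRoot (Polynomial.X ^ 2 + Polynomial.C b * Polynomial.X + Polynomial.C c)) → P R

/-- `P` holds for rings of Krull dimension at most `d`. -/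
def InDim (p : ℕ) (P : (R : Type) → [CommRing R] → Prop) (d : ℕ) : Prop :=
  ∀ (R : Type) [CommRing R], Fg p R → ringKrullDim R ≤ d → P R

/-- The polynomial `q_1 X_1 + ... + q_s X_s + h`. -/
def lin {B : Type} [CommRing B] {s : ℕ} (q : Fin s → B) (h : B) : MvPolynomial (Fin s) B :=
  ∑ i, MvPolynomial.C (q i) * MvPolynomial.X i + MvPolynomial.C h

/-- PIECE E: the ring `C = B[X_1, ..., X_s] / (q_1 X_1 + ... + q_s X_s + h)`. (Induction on `s`:
`C[1 / q_1] = B[1 / q_1][X_2, ..., X_s]`, and `C / (q_1) = C'[X_1]` with the ring `C'` of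
`B / (q_1)`, `q_2, ..., q_s`, `h`; see `S_LIN` for the two isomorphisms.) -/
def S_E : Prop :=
  ∀ (p : ℕ) (P : (R : Type) → [CommRing R] → Prop), IsNice p P →
    (∀ (B : Type) [CommRing B] (s : ℕ) (q : Fin s → B) (h : B), Fg p B →
      (∀ S : Set (Fin s), P (B ⧸ Ideal.span (q '' S))) →
      P (MvPolynomial (Fin s) B ⧸ Ideal.span {lin q h}) →
      P (B ⧸ Ideal.span (Set.range q ∪ {h}))) ∧
    (∀ (B : Type) [CommRing B] (s : ℕ) (q : Fin s → B), Fg p B → 0 < s →
      (∀ S : Set (Fin s), S ≠ Set.univ → P (B ⧸ Ideal.span (q '' S))) →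
      P (MvPolynomial (Fin s) B ⧸ Ideal.span {lin q (-1)}) →
      P (B ⧸ Ideal.span (Set.range q))) ∧
    (∀ (B : Type) [CommRing B] (s : ℕ) (q : Fin s → B) (h : B), Fg p B →
      (∀ S : Set (Fin s), P (B ⧸ Ideal.span (q '' S))) →
      P (B ⧸ Ideal.span (Set.range q ∪ {h})) →
      P (MvPolynomial (Fin s) B ⧸ Ideal.span {lin q h}))

/-- The polynomials `x_a x_b - x_c`, `x_a + x_b - x_c` and `x_a - 1`. -/
def Special {p n : ℕ} (q : MvPolynomial (Fin n) (ZMod p)) : Prop :=
  (∃ a b c, q = MvPolynomial.X a * MvPolynomial.X b - MvPolynomial.X c) ∨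
    (∃ a b c, q = MvPolynomial.X a + MvPolynomial.X b - MvPolynomial.X c) ∨
    ∃ a, q = MvPolynomial.X a - 1

/-- PIECE SHAPE: presentations by the equations `Special`. (Take a large finite subset `S` of `R`
that contains all intermediate results of the computation of the values of a finite set of relations,
one variable `x_s` for each `s ∈ S`, and all relations `Special` that hold between elements of
`S`.) -/
def S_SHAPE : Prop :=
  ∀ (p : ℕ) [Fact p.Prime] (R : Type) [CommRing R], Fg p R →
    ∃ (n r : ℕ) (q : Fin r → MvPolynomial (Fin n) (ZMod p)), (∀ i, Special (q i)) ∧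
      Nonempty (R ≃+* (MvPolynomial (Fin n) (ZMod p) ⧸ Ideal.span (Set.range q)))

/-- `X` is separated and of finite type over the field with `p` elements. -/
def FT (p : ℕ) (X : Scheme.{0}) : Prop :=
  ∃ f : X ⟶ Spec (CommRingCat.of (ZMod p)), LocallyOfFiniteType f ∧ QuasiCompact f ∧
    IsSeparated f

/-- Two of three for a property of schemes. -/
structure IsNiceSch (p : ℕ) (Pr : Scheme.{0} → Prop) : Prop where
  iso : ∀ X Y : Scheme.{0}, FT p X → (X ≅ Y) → Pr X → Pr Y
  closed : ∀ (Z X U : Scheme.{0}) (i : Z ⟶ X) (j : U ⟶ X), IsClosedImmersion i →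
    IsOpenImmersion j → FT p X → Set.range i = (Set.range j)ᶜ → Pr X → Pr U → Pr Z
  total : ∀ (Z X U : Scheme.{0}) (i : Z ⟶ X) (j : U ⟶ X), IsClosedImmersion i →
    IsOpenImmersion j → FT p X → Set.range i = (Set.range j)ᶜ → Pr Z → Pr U → Pr X
  opened : ∀ (Z X U : Scheme.{0}) (i : Z ⟶ X) (j : U ⟶ X), IsClosedImmersion i →
    IsOpenImmersion j → FT p X → Set.range i = (Set.range j)ᶜ → Pr Z → Pr X → Pr U

/-- PIECE AFF: affine schemes. -/
def S_AFF : Prop :=
  ∀ (p : ℕ) (Pr : Scheme.{0} → Prop), IsNiceSch p Pr →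
    (∀ (R : Type) [CommRing R], FT p (Spec (CommRingCat.of R)) ↔ Fg p R) ∧
    (∀ (R S : Type) [CommRing R] [CommRing S], Fg p R → (R ≃+* S) →
      Pr (Spec (CommRingCat.of R)) → Pr (Spec (CommRingCat.of S))) ∧
    (∀ (R : Type) [CommRing R] (a : R), Fg p R → Pr (Spec (CommRingCat.of R)) →
      Pr (Spec (CommRingCat.of (Localization.Away a))) →
      Pr (Spec (CommRingCat.of (R ⧸ Ideal.span {a})))) ∧
    (∀ (R : Type) [CommRing R] (a : R), Fg p R →
      Pr (Spec (CommRingCat.of (R ⧸ Ideal.span {a}))) →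
      Pr (Spec (CommRingCat.of (Localization.Away a))) → Pr (Spec (CommRingCat.of R))) ∧
    (∀ (R : Type) [CommRing R] (a : R), Fg p R →
      Pr (Spec (CommRingCat.of (R ⧸ Ideal.span {a}))) → Pr (Spec (CommRingCat.of R)) →
      Pr (Spec (CommRingCat.of (Localization.Away a))))

/-- PIECE DEV: from affine schemes to all schemes. (Induction on the number of affine opens that
cover `X`: if `U` is one of them, its complement is the range of a closed immersion `Z ⟶ X`
(`AlgebraicGeometry.Scheme.IdealSheafData.vanishingIdeal`, `subschemeι`), and the traces of the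
others on `Z` are affine opens that cover `Z`.) -/
def S_DEV : Prop :=
  ∀ (p : ℕ) (Pr : Scheme.{0} → Prop), IsNiceSch p Pr →
    (∀ (R : Type) [CommRing R], Fg p R → Pr (Spec (CommRingCat.of R))) →
    ∀ X : Scheme.{0}, FT p X → Pr X

end

end Pool.Agent.W2helper42.TQ
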