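import Pool.Agent.W2helper42.TQ.Stm2

/-!
# The ring `B[y_0, ..., y_m] / (q_0 y_0 + ... + q_m y_m - 1)` over the open sets `D(q_k)`
-/

set_option autoImplicit false

namespace Pool.Agent.W2helper42.TQ

open MvPolynomial CategoryTheory CategoryTheory.Limits

noncomputable section

variable {B : Type} [CommRing B] {m : ℕ} (q : Fin (m + 1) → B)

/-- The ring `B[y_0, ..., y_m] / (q_0 y_0 + ... + q_m y_m - 1)`. -/
abbrev CB : Type := MvPolynomial (Fin (m + 1)) B ⧸ Ideal.span {lin q (-1)}

/-- The structure map. -/
def cbStr : B →+* CB q := (Ideal.Quotient.mk _).comp C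

variable (k : Fin (m + 1))

/-- The images of the variables. -/
def cbVar : Fin (m + 1) → MvPolynomial (Fin m) (Localization.Away (q k)) :=
  Fin.insertNth (α := fun _ => MvPolynomial (Fin m) (Localization.Away (q k))) k
    (C (IsLocalization.Away.invSelf (q k)) *
      (1 - ∑ i : Fin m, C (algebraMap B (Localization.Away (q k)) (q (k.succAbove i))) * X i))
    fun i => X i

theorem cbVar_same : cbVar q k k = C (IsLocalization.Away.invSelf (q k)) *
      (1 - ∑ i : Fin m, C (algebraMap B (Localization.Away (q k)) (q (k.succAbove i))) * X i) := by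
  simp [cbVar]

theorem cbVar_succ (i : Fin m) : cbVar q k (k.succAbove i) = X i := by
  simp [cbVar]

/-- The map on polynomials. -/
def cbPoly : MvPolynomial (Fin (m + 1)) B →+* MvPolynomial (Fin m) (Localization.Away (q k)) :=
  eval₂Hom (C.comp (algebraMap B (Localization.Away (q k)))) (cbVar q k)

theorem cbPoly_lin : cbPoly q k (lin q (-1)) = 0 := by
  have h1 : (C (algebraMap B (Localization.Away (q k)) (q k)) *
      C (IsLocalization.Away.invSelf (q k)) :
        MvPolynomial (Fin m) (Localization.Away (q k))) = 1 := by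
    rw [← C_mul, IsLocalization.Away.mul_invSelf, C_1]
  have h2 : cbPoly q k (lin q (-1)) = ∑ i, C (algebraMap B (Localization.Away (q k)) (q i)) *
      cbVar q k i - 1 := by
    unfold cbPoly lin
    simp only [map_add, map_sum, map_mul, coe_eval₂Hom, eval₂_C, eval₂_X, RingHom.comp_apply,
      map_neg, map_one, sub_eq_add_neg]
  rw [h2, Fin.sum_univ_succAbove _ k, cbVar_same]
  simp only [cbVar_succ]
  linear_combination (1 - ∑ i : Fin m,
    C (algebraMap B (Localization.Away (q k)) (q (k.succAbove i))) * X i) * h1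

/-- The map of `B[y] / (q y - 1)` to a polynomial ring over `B[1 / q_k]`. -/
def cbMap : CB q →+* MvPolynomial (Fin m) (Localization.Away (q k)) :=
  Ideal.Quotient.lift _ (cbPoly q k) (by
    intro a ha
    have : Ideal.span {lin q (-1)} ≤ RingHom.ker (cbPoly q k) := by
      rw [Ideal.span_le, Set.singleton_subset_iff]
      exact cbPoly_lin q k
    exact this ha)

theorem cbMap_mk (x : MvPolynomial (Fin (m + 1)) B) :
    cbMap q k (Ideal.Quotient.mk _ x) = cbPoly q k x := rfl

theorem cbMap_str (b : B) : cbMap q k (cbStr q b) =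
    C (algebraMap B (Localization.Away (q k)) b) := by
  change cbPoly q k (C b) = _
  unfold cbPoly
  rw [coe_eval₂Hom, eval₂_C]; rfl

theorem cbMap_X (j : Fin (m + 1)) : cbMap q k (Ideal.Quotient.mk _ (X j)) = cbVar q k j := by
  rw [cbMap_mk]; unfold cbPoly
  rw [coe_eval₂Hom, eval₂_X]

section univ

variable {T : Type} [CommRing T] (a : CB q →+* T) (b : Localization.Away (q k) →+* T)
  (hab : ∀ x, a (cbStr q x) = b (algebraMap B _ x))

/-- The universal property. -/
def cbDesc : MvPolynomial (Fin m) (Localization.Away (q k)) →+* T :=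
  eval₂Hom b fun i => a (Ideal.Quotient.mk _ (X (k.succAbove i)))

theorem cbDesc_C (x : Localization.Away (q k)) : cbDesc q k a b (C x) = b x := by
  unfold cbDesc
  rw [coe_eval₂Hom, eval₂_C]

theorem cbDesc_X (i : Fin m) : cbDesc q k a b (X i) =
    a (Ideal.Quotient.mk _ (X (k.succAbove i))) := by
  unfold cbDesc
  rw [coe_eval₂Hom, eval₂_X]

include hab in
theorem a_rel : ∑ j, b (algebraMap B _ (q j)) * a (Ideal.Quotient.mk _ (X j)) = 1 := by
  have h1 : a (Ideal.Quotient.mk (Ideal.span {lin q (-1)})
      (∑ i, MvPolynomial.C (q i) * MvPolynomial.X i + MvPolynomial.C (-1))) = 0 := by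
    have h0 : Ideal.Quotient.mk (Ideal.span {lin q (-1)}) (lin q (-1)) = 0 :=
      Ideal.Quotient.eq_zero_iff_mem.mpr (Ideal.mem_span_singleton_self _)
    exact (congrArg a h0).trans (map_zero a)
  rw [map_add, map_sum, map_add, map_sum] at h1
  have h2 : a (Ideal.Quotient.mk (Ideal.span {lin q (-1)}) (C (-1))) = -1 := by
    have : (C (-1) : MvPolynomial (Fin (m + 1)) B) = -1 := by rw [map_neg, map_one]
    rw [this, map_neg, map_one, map_neg, map_one]
  rw [h2] at h1
  have h3 : ∑ j, b (algebraMap B _ (q j)) * a (Ideal.Quotient.mk _ (X j)) =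
      ∑ i, a (Ideal.Quotient.mk (Ideal.span {lin q (-1)}) (C (q i) * X i)) := by
    refine Finset.sum_congr rfl fun i _ => ?_
    rw [map_mul, map_mul, ← hab]; rfl
  rw [h3]
  linear_combination h1

include hab in
theorem cbDesc_map (x : CB q) : cbDesc q k a b (cbMap q k x) = a x := by
  have h : (cbDesc q k a b).comp (cbMap q k) = a := by
    refine Ideal.Quotient.ringHom_ext ?_
    refine MvPolynomial.ringHom_ext (fun x => ?_) fun j => ?_
    · change cbDesc q k a b (cbMap q k (cbStr q x)) = a (cbStr q x)
      rw [cbMap_str, cbDesc_C, hab]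
    · change cbDesc q k a b (cbMap q k (Ideal.Quotient.mk _ (X j))) = a (Ideal.Quotient.mk _ (X j))
      rw [cbMap_X]
      rcases Fin.eq_self_or_eq_succAbove k j with rfl | ⟨i, rfl⟩
      · rw [cbVar_same]
        have h1 := a_rel q j a b hab
        rw [Fin.sum_univ_succAbove _ j] at h1
        have h2 : b (algebraMap B (Localization.Away (q j)) (q j)) *
            b (IsLocalization.Away.invSelf (q j)) = 1 := by
          rw [← map_mul, IsLocalization.Away.mul_invSelf, map_one]
        rw [map_mul, map_sub, map_one, map_sum, cbDesc_C]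
        have h3 : ∑ i : Fin m, cbDesc q j a b
            (C (algebraMap B (Localization.Away (q j)) (q (j.succAbove i))) * X i) =
            ∑ i : Fin m, b (algebraMap B _ (q (j.succAbove i))) *
              a (Ideal.Quotient.mk _ (X (j.succAbove i))) := by
          refine Finset.sum_congr rfl fun i _ => ?_
          rw [map_mul, cbDesc_C, cbDesc_X]
        rw [h3]
        linear_combination (-b (IsLocalization.Away.invSelf (q j))) * h1 +
          (a (Ideal.Quotient.mk _ (X j))) * h2
      · rw [cbVar_succ, cbDesc_X]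
  exact congrArg (fun f => f x) h

end univ

/-- The ring square. -/
theorem cb_isPushout : IsPushout (CommRingCat.ofHom (cbStr q))
    (CommRingCat.ofHom (algebraMap B (Localization.Away (q k))))
    (CommRingCat.ofHom (cbMap q k))
    (CommRingCat.ofHom (C : Localization.Away (q k) →+*
      MvPolynomial (Fin m) (Localization.Away (q k)))) := by
  refine ⟨⟨?_⟩, ⟨PushoutCocone.IsColimit.mk _ (fun s => CommRingCat.ofHom
    (cbDesc q k s.inl.hom s.inr.hom)) (fun s => ?_) (fun s => ?_) (fun s f h1 h2 => ?_)⟩⟩
  · exact CommRingCat.hom_ext (RingHom.ext fun x => cbMap_str q k x)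
  · refine CommRingCat.hom_ext (RingHom.ext fun x => cbDesc_map q k _ _ (fun y => ?_) x)
    have := s.condition
    exact congrArg (fun f => f.hom y) this
  · exact CommRingCat.hom_ext (RingHom.ext fun x => cbDesc_C q k _ _ x)
  · refine CommRingCat.hom_ext ?_
    change f.hom = cbDesc q k s.inl.hom s.inr.hom
    refine MvPolynomial.ringHom_ext (fun x => ?_) fun i => ?_
    · rw [cbDesc_C, ← h2]; rfl
    · rw [cbDesc_X, ← h1]
      change _ = f.hom (cbMap q k _)
      rw [cbMap_X, cbVar_succ]

end

end Pool.Agent.W2helper42.TQ
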