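import Pool.Agent.W2helper42.TQ.Stm2

/-!
# Étale motivic Borel-Moore homology of arithmetic schemes in negative weights: definitions
-/

set_option autoImplicit false

namespace Pool.Agent.W2helper42.TQ

open AlgebraicGeometry CategoryTheory

noncomputable section

/-- The spectrum of the ring `R`. -/
abbrev Sp (R : Type) [CommRing R] : Scheme.{0} := Spec (CommRingCat.of R)

/-- The spectrum of `R[t] / (t ^ 2 + b t + c)`, finite and flat of degree two over `Spec R`. -/
abbrev Db (R : Type) [CommRing R] (b c : R) : Scheme.{0} :=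
  Sp (AdjoinRoot (Polynomial.X ^ 2 + Polynomial.C b * Polynomial.X + Polynomial.C c))

/-- `Z` is a closed subscheme of `X`, and `U` is its open complement. -/
def Triple (Z X U : Scheme.{0}) : Prop :=
  ∃ (i : Z ⟶ X) (j : U ⟶ X), IsClosedImmersion i ∧ IsOpenImmersion j ∧
    Set.range i = (Set.range j)ᶜ

/-- Data: the groups `H X i n = H^i(X_et, ℤ^c(n))` of the schemes `X`. -/
structure EtMot where
  H : Scheme.{0} → ℤ → ℤ → Type
  grp : ∀ X i n, AddCommGroup (H X i n)

attribute [instance] EtMot.grp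

/-- Isomorphic schemes have isomorphic groups. -/
def EtMot.Iso (T : EtMot) : Prop :=
  ∀ (X Y : Scheme.{0}) (i n : ℤ), FT 0 X → n < 0 → (X ≅ Y) → Nonempty (T.H X i n ≃+ T.H Y i n)

/-- The long exact localisation sequence of a closed subscheme `Z` of the arithmetic scheme `X` with
the open complement `U`. -/
def EtMot.Loc (T : EtMot) : Prop :=
  ∀ Z X U : Scheme.{0}, Triple Z X U → FT 0 X → ∀ n : ℤ, n < 0 →
    ∃ (a : ∀ k, T.H Z k n →+ T.H X k n) (b : ∀ k, T.H X k n →+ T.H U k n)
      (d : ∀ k, T.H U k n →+ T.H Z (k + 1) n), ∀ k,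
      Function.Exact (a k) (b k) ∧ Function.Exact (b k) (d k) ∧ Function.Exact (d k) (a (k + 1))

/-- `H^i(A^1_X, ℤ^c(n)) = H^(i+2)(X, ℤ^c(n-1))`, for affine arithmetic schemes `X`. -/
def EtMot.Line (T : EtMot) : Prop :=
  ∀ (R : Type) [CommRing R], Fg 0 R → ∀ i n : ℤ, n < 0 →
    Nonempty (T.H (Sp (Polynomial R)) i n ≃+ T.H (Sp R) (i + 2) (n - 1))

/-- The groups `H^i(X_et, ℤ^c(n)) / 2` are finite. -/
def EtMot.Two (T : EtMot) : Prop :=
  ∀ (X : Scheme.{0}) (i n : ℤ), FT 0 X → n < 0 →
    Finite (T.H X i n ⧸ (nsmulAddMonoidHom 2 : T.H X i n →+ T.H X i n).range)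

/-- For `X = Spec R` and `Y = Spec R[t] / (t ^ 2 + b t + c)` (pull-back and push-forward) there are
homomorphisms `H(X) → H(Y) → H(X)` the composition of which is multiplication by two. -/
def EtMot.Transfer (T : EtMot) : Prop :=
  ∀ (R : Type) [CommRing R] (b c : R), Fg 0 R → ∀ i n : ℤ, n < 0 →
    ∃ (f : T.H (Sp R) i n →+ T.H (Db R b c) i n) (g : T.H (Db R b c) i n →+ T.H (Sp R) i n),
      ∀ x, g (f x) = 2 • x

/-- The groups of arithmetic schemes of dimension at most one are finitely generated. -/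
def EtMot.Curves (T : EtMot) : Prop :=
  ∀ X : Scheme.{0}, FT 0 X → topologicalKrullDim X ≤ 1 → ∀ i n : ℤ, n < 0 →
    AddGroup.FG (T.H X i n)

/-- The known properties of the groups `H^i(X_et, ℤ^c(n))` of arithmetic schemes `X` (separated, of
finite type over `ℤ`: `FT 0 X`) and negative weights `n` that are used. -/
structure IsEtMot (T : EtMot) : Prop where
  iso : T.Iso
  loc : T.Loc
  line : T.Line
  two : T.Two
  double : T.Transfer
  curves : T.Curves

/-- The groups of `X` are finitely generated in all degrees, for all weights `n < -N`; so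
`FinGen T X 0` is finite generation for all `n < 0`. -/
def FinGen (T : EtMot) (X : Scheme.{0}) (N : ℕ) : Prop :=
  ∀ i n : ℤ, n < -(N : ℤ) → AddGroup.FG (T.H X i n)

/-- Finite generation in all degrees for all sufficiently negative weights. -/
def EvFinGen (T : EtMot) (X : Scheme.{0}) : Prop := ∃ N : ℕ, FinGen T X N

end

end Pool.Agent.W2helper42.TQ
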