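import Pool.Agent.W2helper42.TQ.BunRing
import Pool.Agent.W2helper42.TQ.EmDefs
import Pool.Agent.W2helper33.TQ.Aff
import Pool.Agent.W2helper75.TQ.Dev

/-!
# The hypersurface `q_0 y_0 + ... + q_m y_m = 1` is an affine bundle over the complement of `q = 0`
-/

set_option autoImplicit false

namespace Pool.Agent.W2helper42.TQ

open AlgebraicGeometry CategoryTheory CategoryTheory.Limits

noncomputable section

/-- `C` is a Zariski locally trivial fibration over `U` whose fibres are affine spaces of dimension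
`m`: every point of `U` has an affine open neighbourhood `Spec R` over which `C` is isomorphic to
`Spec R[X_1, ..., X_m]`. -/
def IsAffBundle (C U : Scheme.{0}) (m : ℕ) : Prop :=
  ∃ f : C ⟶ U, ∀ x : U, ∃ (R : Type) (_ : CommRing R) (j : Sp R ⟶ U)
    (g : Sp (MvPolynomial (Fin m) R) ⟶ C), IsOpenImmersion j ∧ x ∈ Set.range j ∧
      IsPullback g (Spec.map (CommRingCat.ofHom (MvPolynomial.C : R →+* MvPolynomial (Fin m) R))) f j

/-- Affine space over `Spec R`. -/
theorem isAffBundle_space (R : Type) [CommRing R] (m : ℕ) :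
    IsAffBundle (Sp (MvPolynomial (Fin m) R)) (Sp R) m := by
  refine ⟨Spec.map (CommRingCat.ofHom MvPolynomial.C), fun x => ⟨R, inferInstance, 𝟙 _, 𝟙 _,
    inferInstance, ⟨x, rfl⟩, ?_⟩⟩
  exact IsPullback.of_horiz_isIso ⟨by simp⟩

theorem isPullback_of_mono {A B C D D' : Scheme.{0}} {a : A ⟶ B} {b : A ⟶ C} {c : B ⟶ D}
    {d : C ⟶ D} (i : D ⟶ D') [Mono i] {c' : B ⟶ D'} {d' : C ⟶ D'} (hc : c ≫ i = c')
    (hd : d ≫ i = d') (h : IsPullback a b c' d') : IsPullback a b c d := by
  subst hc hd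
  have w : a ≫ c = b ≫ d := by
    rw [← cancel_mono i, Category.assoc, Category.assoc]
    exact h.w
  refine ⟨⟨w⟩, ⟨PullbackCone.IsLimit.mk _ (fun s => h.lift s.fst s.snd ?_) (fun s => ?_)
    (fun s => ?_) (fun s f h1 h2 => ?_)⟩⟩
  · rw [← Category.assoc, ← Category.assoc, s.condition]
  · exact h.lift_fst _ _ _
  · exact h.lift_snd _ _ _
  · refine h.hom_ext ?_ ?_
    · rw [h.lift_fst, h1]
    · rw [h.lift_snd, h2]

variable {B : Type} [CommRing B]

/-- The complement of the zeros of the ideal. -/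
def cpl (I : Ideal B) : (Sp B).Opens :=
  ⟨(PrimeSpectrum.zeroLocus (I : Set B))ᶜ, (PrimeSpectrum.isClosed_zeroLocus _).isOpen_compl⟩

theorem range_cpl (I : Ideal B) : Set.range (cpl I).ι =
    (PrimeSpectrum.zeroLocus (I : Set B) : Set (PrimeSpectrum B))ᶜ := by
  rw [Scheme.Opens.range_ι]; rfl

theorem triple_cpl (I : Ideal B) : Triple (Sp (B ⧸ I)) (Sp B) (cpl I : Scheme) := by
  refine ⟨Spec.map (CommRingCat.ofHom (Ideal.Quotient.mk I)), (cpl I).ι,
    IsClosedImmersion.spec_of_surjective _ Ideal.Quotient.mk_surjective, inferInstance, ?_⟩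
  have h := range_comap_of_surjective (B ⧸ I) (Ideal.Quotient.mk I) Ideal.Quotient.mk_surjective
  rw [Ideal.mk_ker] at h
  have h2 : Set.range (Spec.map (CommRingCat.ofHom (Ideal.Quotient.mk I))) =
    (PrimeSpectrum.zeroLocus (I : Set B) : Set (PrimeSpectrum B)) := h
  exact h2.trans ((congrArg compl (range_cpl I)).trans (compl_compl _)).symm

variable {m : ℕ} (q : Fin (m + 1) → B)

theorem cb_rel : ∑ j, cbStr q (q j) * Ideal.Quotient.mk _ (MvPolynomial.X j) = 1 := by
  have h0 : Ideal.Quotient.mk (Ideal.span {lin q (-1)})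
      (∑ i, MvPolynomial.C (q i) * MvPolynomial.X i + MvPolynomial.C (-1)) = 0 :=
    Ideal.Quotient.eq_zero_iff_mem.mpr (Ideal.mem_span_singleton_self _)
  rw [map_add, map_sum, map_neg, map_one, map_neg, map_one] at h0
  have h1 : ∑ j, cbStr q (q j) * Ideal.Quotient.mk _ (MvPolynomial.X j) =
      ∑ i, Ideal.Quotient.mk (Ideal.span {lin q (-1)}) (MvPolynomial.C (q i) *
        MvPolynomial.X i) := by
    refine Finset.sum_congr rfl fun i _ => ?_
    rw [map_mul]; rfl
  rw [h1]
  linear_combination h0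

theorem range_cb : Set.range (Spec.map (CommRingCat.ofHom (cbStr q))) ⊆
    Set.range (cpl (Ideal.span (Set.range q))).ι := by
  rw [range_cpl]
  rintro _ ⟨P, rfl⟩ hP
  have h1 : ∀ j, cbStr q (q j) ∈ P.asIdeal := fun j =>
    hP (Ideal.subset_span ⟨j, rfl⟩)
  have h2 : (1 : CB q) ∈ P.asIdeal := by
    rw [← cb_rel q]
    exact sum_mem fun j _ => P.asIdeal.mul_mem_right _ (h1 j)
  exact P.isPrime.ne_top ((Ideal.eq_top_iff_one _).2 h2)

/-- The hypersurface is an affine bundle over the complement. -/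
theorem isAffBundle_cb : IsAffBundle (Sp (CB q)) (cpl (Ideal.span (Set.range q)) : Scheme) m := by
  set U := cpl (Ideal.span (Set.range q)) with hU
  refine ⟨IsOpenImmersion.lift U.ι (Spec.map (CommRingCat.ofHom (cbStr q))) (range_cb q),
    fun x => ?_⟩
  have hx : U.ι x ∈ Set.range U.ι := ⟨x, rfl⟩
  rw [range_cpl] at hx
  obtain ⟨k, hk⟩ : ∃ k, q k ∉ (U.ι x : PrimeSpectrum B).asIdeal := by
    by_contra h
    push Not at h
    refine hx (Ideal.span_le.2 ?_)
    rintro _ ⟨j, rfl⟩
    exact h j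
  have hr : Set.range (W2helper33.TQ.oj B (q k)) = (PrimeSpectrum.basicOpen (q k) :
      Set (PrimeSpectrum B)) :=
    PrimeSpectrum.localization_away_comap_range (Localization.Away (q k)) (q k)
  have hsub : Set.range (W2helper33.TQ.oj B (q k)) ⊆ Set.range U.ι := by
    rw [hr, range_cpl]
    intro y hy hy'
    exact hy (hy' (Ideal.subset_span ⟨k, rfl⟩))
  have ho := W2helper33.TQ.oj_open B (q k)
  have hj := IsOpenImmersion.lift_fac U.ι (W2helper33.TQ.oj B (q k)) hsub
  refine ⟨Localization.Away (q k), inferInstance,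
    IsOpenImmersion.lift U.ι (W2helper33.TQ.oj B (q k)) hsub,
    Spec.map (CommRingCat.ofHom (cbMap q k)), ?_, ?_, ?_⟩
  · have : IsOpenImmersion (IsOpenImmersion.lift U.ι (W2helper33.TQ.oj B (q k)) hsub ≫ U.ι) := by
      rw [hj]; exact ho
    exact IsOpenImmersion.of_comp _ U.ι
  · have h1 : U.ι x ∈ Set.range (W2helper33.TQ.oj B (q k)) := by
      rw [hr]; exact hk
    obtain ⟨y, hy⟩ := h1
    refine ⟨y, ?_⟩
    have h2 : U.ι (IsOpenImmersion.lift U.ι (W2helper33.TQ.oj B (q k)) hsub y) = U.ι x := by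
      rw [← hy, ← Scheme.Hom.comp_apply, hj]
    exact U.ι.isOpenEmbedding.injective h2
  · refine isPullback_of_mono U.ι (IsOpenImmersion.lift_fac _ _ _) hj ?_
    exact isPullback_SpecMap_of_isPushout _ _ _ _ (cb_isPushout q k)

end

end Pool.Agent.W2helper42.TQ
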