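import Pool.Agent.W2helper42.TQ.Stm

/-!
# Decomposition of polynomials of degree at most two with respect to one variable
-/

set_option autoImplicit false

namespace Pool.Agent.W2helper42.TQ

open MvPolynomial

noncomputable section

theorem ext_none {R τ : Type} [CommRing R] {p q : MvPolynomial (Option τ) R}
    (h : optionEquivLeft R τ p = optionEquivLeft R τ q) : p = q :=
  (optionEquivLeft R τ).injective h

theorem equiv_rename {R τ : Type} [CommRing R] (q : MvPolynomial τ R) :
    optionEquivLeft R τ (rename some q) = Polynomial.C q := by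
  induction q using MvPolynomial.induction_on with
  | C a => simp [optionEquivLeft_C]
  | add p q hp hq => simp [hp, hq]
  | mul_X p k hp => simp [hp, optionEquivLeft_X_some]

theorem coeff_deg {R τ : Type} [CommRing R] {p : MvPolynomial (Option τ) R} {n : ℕ}
    (hp : p.totalDegree ≤ n) {i : ℕ} (hi : i ≤ n) :
    ((optionEquivLeft R τ p).coeff i).totalDegree ≤ n - i := by
  by_cases h : i ≤ p.totalDegree
  · have := totalDegree_coeff_optionEquivLeft_add_le _ _ p i h
    omega
  · have h0 : (optionEquivLeft R τ p).coeff i = 0 := by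
      apply Polynomial.coeff_eq_zero_of_natDegree_lt
      rw [natDegree_optionEquivLeft]
      have := degreeOf_le_totalDegree p (none : Option τ)
      omega
    rw [h0]; simp

theorem natDegree_le_of {R τ : Type} [CommRing R] {p : MvPolynomial (Option τ) R} {n : ℕ}
    (hp : p.totalDegree ≤ n) : (optionEquivLeft R τ p).natDegree ≤ n := by
  rw [natDegree_optionEquivLeft]
  exact (degreeOf_le_totalDegree p none).trans hp

/-- A polynomial of degree at most two. -/
theorem decomp2 {R τ : Type} [CommRing R] {g : MvPolynomial (Option τ) R}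
    (hg : g.totalDegree ≤ 2) : ∃ (c : R) (l h : MvPolynomial τ R), l.totalDegree ≤ 1 ∧
      h.totalDegree ≤ 2 ∧
      g = C c * X none ^ 2 + rename some l * X none + rename some h := by
  have h2 := coeff_deg hg (le_refl 2)
  have h1 := coeff_deg hg (show 1 ≤ 2 by norm_num)
  have h0 := coeff_deg hg (show 0 ≤ 2 by norm_num)
  have hc := totalDegree_eq_zero_iff_eq_C.mp (Nat.le_zero.mp h2)
  refine ⟨coeff 0 ((optionEquivLeft R τ g).coeff 2), (optionEquivLeft R τ g).coeff 1,
    (optionEquivLeft R τ g).coeff 0, h1, h0, ?_⟩
  apply ext_none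
  rw [map_add, map_add, map_mul, map_mul, map_pow, optionEquivLeft_X_none, optionEquivLeft_C,
    equiv_rename, equiv_rename, ← hc]
  conv_lhs => rw [Polynomial.as_sum_range_C_mul_X_pow' (optionEquivLeft R τ g)
    (n := 3) (Nat.lt_succ_of_le (natDegree_le_of hg))]
  simp only [Finset.sum_range_succ, Finset.sum_range_zero]
  ring

/-- A polynomial of degree at most one. -/
theorem decomp1 {R τ : Type} [CommRing R] {g : MvPolynomial (Option τ) R}
    (hg : g.totalDegree ≤ 1) : ∃ m : MvPolynomial τ R, m.totalDegree ≤ 1 ∧
      g = C (g.coeff (Finsupp.single none 1)) * X none + rename some m := by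
  have h1 := coeff_deg hg (le_refl 1)
  have h0 := coeff_deg hg (show 0 ≤ 1 by norm_num)
  have hc := totalDegree_eq_zero_iff_eq_C.mp (Nat.le_zero.mp h1)
  have hs : (0 : τ →₀ ℕ).optionElim 1 = Finsupp.single none 1 := by
    classical
    ext x
    cases x <;> simp
  have hc2 : (((optionEquivLeft R τ) g).coeff 1).coeff 0 = g.coeff (Finsupp.single none 1) := by
    rw [optionEquivLeft_coeff_coeff, hs]
  rw [hc2] at hc
  refine ⟨(optionEquivLeft R τ g).coeff 0, h0, ?_⟩
  apply ext_none
  rw [map_add, map_mul, optionEquivLeft_X_none, optionEquivLeft_C, equiv_rename, ← hc]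
  conv_lhs => rw [Polynomial.as_sum_range_C_mul_X_pow' (optionEquivLeft R τ g)
    (n := 2) (Nat.lt_succ_of_le (natDegree_le_of hg))]
  simp only [Finset.sum_range_succ, Finset.sum_range_zero]
  ring

theorem eq_C_of {R τ : Type} [CommRing R] {g : MvPolynomial τ R}
    (hg : g.totalDegree ≤ 1) (h : ∀ k, g.coeff (Finsupp.single k 1) = 0) :
    g = C (g.coeff 0) := by
  classical
  ext m
  rw [coeff_C]
  by_cases h0 : 0 = m
  · rw [if_pos h0, h0]
  · rw [if_neg h0]
    by_cases h1 : m.sum (fun _ n => n) = 1
    · obtain ⟨a, ha⟩ := (Finsupp.sum_eq_one_iff m).mp h1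
      rw [ha]
      exact h a
    · apply coeff_eq_zero_of_totalDegree_lt
      have h2 : m.sum (fun _ n => n) ≠ 0 := by
        intro h3
        apply h0
        ext k
        by_contra hk
        have h4 : m k ≠ 0 := fun h => hk (by simp [h])
        have h5 : m k ≤ m.sum (fun _ n => n) :=
          Finset.single_le_sum (f := fun k => m k) (fun _ _ => Nat.zero_le _)
            (Finsupp.mem_support_iff.mpr h4)
        omega
      have h6 : m.sum (fun _ n => n) = ∑ i ∈ m.support, m i := rfl
      omega

theorem totalDegree_map' {R S σ : Type} [CommRing R] [CommRing S] (f : R →+* S)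
    {g : MvPolynomial σ R} {n : ℕ} (hg : g.totalDegree ≤ n) :
    (MvPolynomial.map f g).totalDegree ≤ n := by
  refine le_trans ?_ hg
  apply Finset.sup_mono
  exact support_map_subset f g

end

end Pool.Agent.W2helper42.TQ
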