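import Pool.Agent.W2helper42.TQ.Bundle

/-!
# Étale motivic Borel-Moore homology: affine bundles
-/

set_option autoImplicit false

namespace Pool.Agent.W2helper42.TQ

open AlgebraicGeometry CategoryTheory

noncomputable section

/-- `H^i(C, ℤ^c(n)) = H^(i+2m)(U, ℤ^c(n-m))` for a Zariski locally trivial fibration of `C` over `U`
with fibres affine spaces of dimension `m`. -/
def EtMot.Bundle (T : EtMot) : Prop :=
  ∀ (C U : Scheme.{0}) (m : ℕ), IsAffBundle C U m → FT 0 U → ∀ i n : ℤ, n < 0 →
    Nonempty (T.H C i n ≃+ T.H U (i + 2 * m) (n - m))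

/-- The known properties of the groups `H^i(X_et, ℤ^c(n))` of arithmetic schemes `X` (separated, of
finite type over `ℤ`: `FT 0 X`) and negative weights `n` that are used: isomorphism invariance,
localisation sequences, affine bundles, and finite generation for `Spec ℤ`. -/
structure IsEtBM (T : EtMot) : Prop where
  iso : T.Iso
  loc : T.Loc
  bundle : T.Bundle
  int : ∀ i n : ℤ, n < 0 → AddGroup.FG (T.H (Sp ℤ) i n)

end

end Pool.Agent.W2helper42.TQ
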