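import Pool.Agent.W2helper42.TQ.Step
import Pool.Agent.W2helper15.TQ.Shape

/-!
# Several quadratic equations, and the reduction to cubic polynomials
-/

set_option autoImplicit false

namespace Pool.Agent.W2helper42.TQ

open MvPolynomial Pool.Agent.W2helper84.TQ Pool.Agent.W2helper6.TQ

noncomputable section

variable {p d : ℕ} {P : (R : Type) → [CommRing R] → Prop}

theorem enum {s : ℕ} (S : Set (Fin s)) : ∃ (r : ℕ) (f : Fin r → Fin s), Set.range f = S ∧
    r ≤ s ∧ (S ≠ Set.univ → r < s) := by
  classical
  have hS : S.Finite := Set.toFinite S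
  refine ⟨hS.toFinset.card, fun i => (hS.toFinset.equivFin.symm i : Fin s), ?_, ?_, ?_⟩
  · ext x
    simp only [Set.mem_range]
    constructor
    · rintro ⟨i, rfl⟩
      exact hS.mem_toFinset.mp (hS.toFinset.equivFin.symm i).2
    · intro hx
      refine ⟨hS.toFinset.equivFin ⟨x, hS.mem_toFinset.mpr hx⟩, ?_⟩
      rw [Equiv.symm_apply_apply]
  · have := Finset.card_le_univ hS.toFinset
    rwa [Fintype.card_fin] at this
  · intro hne
    have h1 : hS.toFinset ≠ Finset.univ := by
      intro h
      apply hne
      rw [← hS.coe_toFinset, h, Finset.coe_univ]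
    have h3 : hS.toFinset ⊂ Finset.univ := Finset.ssubset_univ_iff.mpr h1
    have h4 := Finset.card_lt_card h3
    rwa [Finset.card_univ, Fintype.card_fin] at h4

theorem noeth {R : Type} [CommRing R] (h : Fg p R) : IsNoetherianRing R := by
  obtain ⟨f, hf⟩ := h
  let _ := f.toAlgebra
  have _ : Algebra.FiniteType (ZMod p) R := hf
  have _ : IsNoetherianRing (ZMod p) := by
    cases p with
    | zero => exact (inferInstance : IsNoetherianRing ℤ)
    | succ n => infer_instance
  exact Algebra.FiniteType.isNoetherianRing (ZMod p) R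

theorem p_mv (hP : IsNice0 p P) {R : Type} [CommRing R] (hR : Fg p R) (h : P R) (n : ℕ) :
    P (MvPolynomial (Fin n) R) := by
  induction n with
  | zero => exact hP.iso _ _ (isEmptyRingEquiv R (Fin 0)).symm h
  | succ n ih =>
    exact hP.iso _ _ (finSuccEquiv R n).toRingEquiv.symm (hP.poly _ (fg_mv hR _) ih)

theorem p_mv' (hP : IsNice0 p P) {R : Type} [CommRing R] (hR : Fg p R) (h : P R) (σ : Type)
    [Finite σ] : P (MvPolynomial σ R) := by
  have := Fintype.ofFinite σ
  exact hP.iso _ _ (renameEquiv R (Fintype.equivFin σ).symm).toRingEquiv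
    (p_mv hP hR h _)

/-- Several quadratic equations. -/
theorem quadrics (hE : S_E) (hP : IsNice p P) (hI : InDim p P d) {R σ : Type} [CommRing R]
    [Finite σ] (hR : Fg p R) (e : ℕ) (he : ringKrullDim R ≤ e) (s : ℕ) : e + s ≤ d →
    ∀ q : Fin (s + 1) → MvPolynomial σ R, (∀ i, (q i).totalDegree ≤ 2) →
    P (MvPolynomial σ R ⧸ Ideal.span (Set.range q)) := by
  classical
  induction s using Nat.strong_induction_on with
  | _ s ih =>
    intro hes q hq
    have hB : Fg p (MvPolynomial σ R) := fg_mv hR σ
    have hed : (e : WithBot ℕ∞) ≤ d := by exact_mod_cast (by omega : e ≤ d)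
    have hPB : P (MvPolynomial σ R) := p_mv' hP.to0 hR (hI R hR (he.trans hed)) σ
    have key := (hE p P hP).1 (MvPolynomial σ R) s (fun i => q i.castSucc) (q (Fin.last s)) hB
    have hr : Set.range (fun i : Fin s => q i.castSucc) ∪ {q (Fin.last s)} = Set.range q := by
      ext x
      simp only [Set.mem_union, Set.mem_range, Set.mem_singleton_iff]
      constructor
      · rintro (⟨i, rfl⟩ | rfl)
        · exact ⟨_, rfl⟩
        · exact ⟨_, rfl⟩
      · rintro ⟨i, rfl⟩
        refine Fin.lastCases ?_ (fun j => ?_) i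
        · exact Or.inr rfl
        · exact Or.inl ⟨j, rfl⟩
    rw [hr] at key
    refine key ?_ ?_
    · intro S
      obtain ⟨r, f, hf, hrs, _⟩ := enum S
      have hS : (fun i : Fin s => q i.castSucc) '' S =
          Set.range (fun i : Fin r => q (f i).castSucc) := by
        rw [← hf, ← Set.range_comp]; rfl
      rw [hS]
      cases r with
      | zero =>
        have h0 : Set.range (fun i : Fin 0 => q (f i).castSucc) = ∅ := Set.range_eq_empty _
        rw [h0]
        have h1 : Ideal.span (∅ : Set (MvPolynomial σ R)) = ⊥ := Ideal.span_empty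
        rw [h1]
        exact hP.iso _ _ (RingEquiv.quotientBot _).symm hPB
      | succ r => exact ih r (by omega) (by omega) _ (fun i => hq _)
    · refine transport1 hP.to0 (commAlgEquiv R (Fin s) σ).toRingEquiv _ ?_
      refine quadratic hP.to0 hI _ σ (fg_mv hR (Fin s)) ?_ _ ?_
      · have _ := noeth hR
        rw [MvPolynomial.ringKrullDim_of_isNoetherianRing]
        simp only [Nat.card_eq_fintype_card, Fintype.card_fin]
        refine (add_le_add_left he (s : WithBot ℕ∞)).trans ?_
        exact_mod_cast hes
      · change ((commAlgEquiv R (Fin s) σ) (lin _ _)).totalDegree ≤ 2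
        rw [lin, map_add, map_sum]
        refine (totalDegree_add _ _).trans (max_le ?_ ?_)
        · refine (totalDegree_finsetSum _ _).trans (Finset.sup_le fun i _ => ?_)
          rw [map_mul, commAlgEquiv_C, commAlgEquiv_X]
          refine (totalDegree_mul _ _).trans ?_
          have := totalDegree_map' (C : R →+* MvPolynomial (Fin s) R) (hq i.castSucc)
          rw [totalDegree_C]
          omega
        · rw [commAlgEquiv_C]
          exact totalDegree_map' _ (hq _)

/-- The reduction to cubic polynomials. -/
theorem of_cubic (hE : S_E) (hP : IsNice p P) (h0 : P (ZMod p))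
    (hc : ∀ (n r : ℕ) (q : Fin r → MvPolynomial (Fin n) (ZMod p)), (∀ i, Special (q i)) →
      P (MvPolynomial (Fin r) (MvPolynomial (Fin n) (ZMod p)) ⧸ Ideal.span {lin q (-1)}))
    (hF : Fg p (ZMod p)) (n r : ℕ) : ∀ (q : Fin r → MvPolynomial (Fin n) (ZMod p)),
      (∀ i, Special (q i)) → P (MvPolynomial (Fin n) (ZMod p) ⧸ Ideal.span (Set.range q)) := by
  induction r using Nat.strong_induction_on with
  | _ r ih =>
    intro q hq
    have hPB : P (MvPolynomial (Fin n) (ZMod p)) := p_mv hP.to0 hF h0 n
    cases r with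
    | zero =>
      rw [Set.range_eq_empty, Ideal.span_empty]
      exact hP.iso _ _ (RingEquiv.quotientBot _).symm hPB
    | succ r =>
      refine (hE p P hP).2.1 _ (r + 1) q (fg_mv hF _) (Nat.succ_pos r) ?_ (hc n _ q hq)
      intro S hS
      obtain ⟨t, f, hf, _, ht⟩ := enum S
      have h1 : q '' S = Set.range (fun i => q (f i)) := by
        rw [← hf, ← Set.range_comp]; rfl
      rw [h1]
      exact ih t (ht hS) _ (fun i => hq _)

end

end Pool.Agent.W2helper42.TQ
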