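import Pool.Agent.W2helper15.TQ.Shape

/-!
# Presentations by special equations, for all `p` (see `W2helper15.TQ.shape_all`)
-/
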