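import Pool.Agent.W2helper42.TQ.EmDefs
import Pool.Agent.W2helper42.TQ.Quad
import Pool.Agent.W2helper42.TQ.Shape0
import Pool.Agent.W2helper15.TQ.E
import Pool.Agent.W2helper33.TQ.Aff
import Pool.Agent.W2helper75.TQ.Dev

/-!
# Étale motivic Borel-Moore homology of arithmetic schemes in negative weights
-/

set_option autoImplicit false

namespace Pool.Agent.W2helper42.TQ

open AlgebraicGeometry CategoryTheory

noncomputable section

section fg

variable {A B C : Type} [AddCommGroup A] [AddCommGroup B] [AddCommGroup C]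

theorem noeth_of_fg (h : AddGroup.FG A) : IsNoetherian ℤ A := by
  have : Module.Finite ℤ A := Module.Finite.iff_addGroup_fg.mpr h
  infer_instance

theorem fg_of_noeth (h : IsNoetherian ℤ A) : AddGroup.FG A :=
  Module.Finite.iff_addGroup_fg.mp inferInstance

theorem fg_middle (f : A →+ B) (g : B →+ C) (h : Function.Exact f g) (hA : AddGroup.FG A)
    (hC : AddGroup.FG C) : AddGroup.FG B := by
  have _ := noeth_of_fg hA
  have _ := noeth_of_fg hC
  refine fg_of_noeth (isNoetherian_of_range_eq_ker f.toIntLinearMap g.toIntLinearMap ?_)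
  ext x
  simp only [LinearMap.mem_range, LinearMap.mem_ker]
  exact (h x).symm

theorem fg_equiv' (e : A ≃+ B) (hA : AddGroup.FG A) : AddGroup.FG B := by
  have _ := noeth_of_fg hA
  exact fg_of_noeth (isNoetherian_of_linearEquiv e.toIntLinearEquiv)

theorem fg_double (f : A →+ B) (g : B →+ A) (h : ∀ x, g (f x) = 2 • x)
    (h2 : Finite (A ⧸ (nsmulAddMonoidHom 2 : A →+ A).range)) (hB : AddGroup.FG B) :
    AddGroup.FG A := by
  have _ := noeth_of_fg hB
  have h3 : AddGroup.FG (nsmulAddMonoidHom 2 : A →+ A).range := by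
    have h4 : IsNoetherian ℤ (AddMonoidHom.range g).toIntSubmodule := by
      have : (AddMonoidHom.range g).toIntSubmodule = LinearMap.range g.toIntLinearMap := by
        ext x; simp [AddMonoidHom.mem_range]
      rw [this]; infer_instance
    have h5 : (nsmulAddMonoidHom 2 : A →+ A).range.toIntSubmodule ≤
        (AddMonoidHom.range g).toIntSubmodule := by
      rintro x ⟨y, rfl⟩
      exact ⟨f y, h y⟩
    exact fg_of_noeth (A := (nsmulAddMonoidHom 2 : A →+ A).range.toIntSubmodule)
      (isNoetherian_of_le h5)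
  have h6 : AddGroup.FG (A ⧸ (nsmulAddMonoidHom 2 : A →+ A).range) := inferInstance
  refine fg_middle (nsmulAddMonoidHom 2 : A →+ A).range.subtype
    (QuotientAddGroup.mk' (nsmulAddMonoidHom 2 : A →+ A).range) ?_ h3 h6
  intro x
  rw [QuotientAddGroup.mk'_apply, QuotientAddGroup.eq_zero_iff]
  constructor
  · intro hx; exact ⟨⟨x, hx⟩, rfl⟩
  · rintro ⟨y, rfl⟩; exact y.2

end fg

variable {T : EtMot}

theorem finGen_mono {X : Scheme.{0}} {N M : ℕ} (h : N ≤ M) (hX : FinGen T X N) :
    FinGen T X M := by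
  intro i n hn
  refine hX i n ?_
  have : (N : ℤ) ≤ M := by exact_mod_cast h
  omega

theorem nice_fin (hT : IsEtMot T) (N : ℕ) : IsNiceSch 0 fun X => FinGen T X N where
  iso X Y hX e h := by
    intro i n hn
    obtain ⟨E⟩ := hT.iso X Y i n hX (by omega) e
    exact fg_equiv' E (h i n hn)
  closed Z X U i j hi hj hX hr h1 h2 := by
    intro k n hn
    obtain ⟨a, b, d, hE⟩ := hT.loc Z X U ⟨i, j, hi, hj, hr⟩ hX n (by omega)
    obtain ⟨m, rfl⟩ : ∃ m, k = m + 1 := ⟨k - 1, by ring⟩
    exact fg_middle (d m) (a (m + 1)) (hE m).2.2 (h2 m n hn) (h1 (m + 1) n hn)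
  total Z X U i j hi hj hX hr h1 h2 := by
    intro k n hn
    obtain ⟨a, b, d, hE⟩ := hT.loc Z X U ⟨i, j, hi, hj, hr⟩ hX n (by omega)
    exact fg_middle (a k) (b k) (hE k).1 (h1 k n hn) (h2 k n hn)
  opened Z X U i j hi hj hX hr h1 h2 := by
    intro k n hn
    obtain ⟨a, b, d, hE⟩ := hT.loc Z X U ⟨i, j, hi, hj, hr⟩ hX n (by omega)
    exact fg_middle (b k) (d k) (hE k).2.1 (h2 k n hn) (h1 (k + 1) n hn)

theorem nice_ev (hT : IsEtMot T) : IsNiceSch 0 fun X => EvFinGen T X where
  iso X Y hX e h := by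
    obtain ⟨N, h⟩ := h
    exact ⟨N, (nice_fin hT N).iso X Y hX e h⟩
  closed Z X U i j hi hj hX hr h1 h2 := by
    obtain ⟨N, h1⟩ := h1
    obtain ⟨M, h2⟩ := h2
    exact ⟨max N M, (nice_fin hT _).closed Z X U i j hi hj hX hr
      (finGen_mono (le_max_left _ _) h1) (finGen_mono (le_max_right _ _) h2)⟩
  total Z X U i j hi hj hX hr h1 h2 := by
    obtain ⟨N, h1⟩ := h1
    obtain ⟨M, h2⟩ := h2
    exact ⟨max N M, (nice_fin hT _).total Z X U i j hi hj hX hr
      (finGen_mono (le_max_left _ _) h1) (finGen_mono (le_max_right _ _) h2)⟩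
  opened Z X U i j hi hj hX hr h1 h2 := by
    obtain ⟨N, h1⟩ := h1
    obtain ⟨M, h2⟩ := h2
    exact ⟨max N M, (nice_fin hT _).opened Z X U i j hi hj hX hr
      (finGen_mono (le_max_left _ _) h1) (finGen_mono (le_max_right _ _) h2)⟩

theorem line_fwd (hT : IsEtMot T) {R : Type} [CommRing R] (hR : Fg 0 R) {N : ℕ}
    (h : FinGen T (Spec (CommRingCat.of R)) N) :
    FinGen T (Spec (CommRingCat.of (Polynomial R))) N := by
  intro i n hn
  obtain ⟨e⟩ := hT.line R hR i n (by omega)
  exact fg_equiv' e.symm (h (i + 2) (n - 1) (by omega))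

theorem line_back (hT : IsEtMot T) {R : Type} [CommRing R] (hR : Fg 0 R) {N : ℕ}
    (h : FinGen T (Spec (CommRingCat.of (Polynomial R))) N) :
    FinGen T (Spec (CommRingCat.of R)) (N + 1) := by
  intro i n hn
  obtain ⟨e⟩ := hT.line R hR (i - 2) (n + 1) (by push_cast at hn; omega)
  have e' : T.H (Spec (CommRingCat.of R)) (i - 2 + 2) (n + 1 - 1) =
      T.H (Spec (CommRingCat.of R)) i n := by
    rw [sub_add_cancel, add_sub_cancel_right]
  have h1 := fg_equiv' e (h (i - 2) (n + 1) (by push_cast at hn; omega))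
  rwa [sub_add_cancel, add_sub_cancel_right] at h1

theorem double_fin (hT : IsEtMot T) {R : Type} [CommRing R] (b c : R) (hR : Fg 0 R) {N : ℕ}
    (h : FinGen T (Spec (CommRingCat.of (AdjoinRoot
          (Polynomial.X ^ 2 + Polynomial.C b * Polynomial.X + Polynomial.C c)))) N) :
    FinGen T (Spec (CommRingCat.of R)) N := by
  intro i n hn
  obtain ⟨f, g, hfg⟩ := hT.double R b c hR i n (by omega)
  have hX : FT 0 (Spec (CommRingCat.of R)) := ((W2helper33.TQ.piece_AFF 0 _ (nice_fin hT N)).1 R).2 hR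
  exact fg_double f g hfg (hT.two _ i n hX (by omega)) (h i n hn)

/-- The property of rings. -/
def PR (p : ℕ) (Pr : Scheme.{0} → Prop) (R : Type) [CommRing R] : Prop :=
  Fg p R → Pr (Spec (CommRingCat.of R))

theorem nice_ring0 {p : ℕ} {Pr : Scheme.{0} → Prop} (h : IsNiceSch p Pr)
    (hl : ∀ (R : Type) [CommRing R], Fg p R → Pr (Spec (CommRingCat.of R)) →
      Pr (Spec (CommRingCat.of (Polynomial R))))
    (hd : ∀ (R : Type) [CommRing R] (b c : R), Fg p R →
      Pr (Spec (CommRingCat.of (AdjoinRoot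
          (Polynomial.X ^ 2 + Polynomial.C b * Polynomial.X + Polynomial.C c)))) →
      Pr (Spec (CommRingCat.of R))) : IsNice0 p (PR p Pr) := by
  obtain ⟨_, h2, h3, h4, h5⟩ := W2helper33.TQ.piece_AFF p Pr h
  exact
  { iso := fun R S _ _ e hR hS => by
      have hR' := fg_equiv hS e.symm
      exact h2 R S hR' e (hR hR')
    closed := fun R _ a hR h1 h2 _ => h3 R a hR (h1 hR) (h2 (fg_away hR a))
    total := fun R _ a hR h1 h2 _ => h4 R a hR (h1 (fg_quot hR _)) (h2 (fg_away hR a))
    opened := fun R _ a hR h1 h2 _ => h5 R a hR (h1 (fg_quot hR _)) (h2 hR)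
    poly := fun R _ hR h1 _ => hl R hR (h1 hR)
    double := fun R _ b c hR h1 _ => hd R b c hR (h1 (fg_root hR _)) }

theorem nice_ring {p : ℕ} {Pr : Scheme.{0} → Prop} (h : IsNiceSch p Pr)
    (hl : ∀ (R : Type) [CommRing R], Fg p R → (Pr (Spec (CommRingCat.of R)) ↔
      Pr (Spec (CommRingCat.of (Polynomial R)))))
    (hd : ∀ (R : Type) [CommRing R] (b c : R), Fg p R →
      Pr (Spec (CommRingCat.of (AdjoinRoot
          (Polynomial.X ^ 2 + Polynomial.C b * Polynomial.X + Polynomial.C c)))) →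
      Pr (Spec (CommRingCat.of R))) : IsNice p (PR p Pr) := by
  have h0 := nice_ring0 h (fun R _ hR => (hl R hR).1) hd
  exact
  { iso := h0.iso
    closed := h0.closed
    total := h0.total
    opened := h0.opened
    poly := fun R _ hR => ⟨h0.poly R hR, fun h1 _ => (hl R hR).2 (h1 (fg_poly hR))⟩
    double := h0.double }

/-- From dimensions of schemes to dimensions of rings. -/
theorem inDim_of {p d : ℕ} {Pr : Scheme.{0} → Prop} (h : IsNiceSch p Pr)
    (hd : ∀ X : Scheme.{0}, FT p X → topologicalKrullDim X ≤ d → Pr X) :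
    InDim p (PR p Pr) d := by
  intro R _ hR hR' _
  refine hd _ (((W2helper33.TQ.piece_AFF p Pr h).1 R).2 hR) ?_
  have : topologicalKrullDim (PrimeSpectrum R) = ringKrullDim R :=
    PrimeSpectrum.topologicalKrullDim_eq_ringKrullDim R
  exact this.trans_le hR'

end

end Pool.Agent.W2helper42.TQ
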