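import Pool.Agent.W2helper42.TQ.Shape0
import Pool.Agent.W2helper42.TQ.Stm2

/-!
# Presentations with at least one equation
-/

set_option autoImplicit false

namespace Pool.Agent.W2helper42.TQ

open MvPolynomial

noncomputable section

variable {p : ℕ}

theorem special_rename {n : ℕ} {f : MvPolynomial (Fin n) (ZMod p)} (h : Special f) :
    Special (rename Fin.succ f) := by
  rcases h with ⟨a, b, c, rfl⟩ | ⟨a, b, c, rfl⟩ | ⟨a, rfl⟩
  · exact Or.inl ⟨a.succ, b.succ, c.succ, by simp⟩
  · exact Or.inr (Or.inl ⟨a.succ, b.succ, c.succ, by simp⟩)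
  · exact Or.inr (Or.inr ⟨a.succ, by simp⟩)

/-- Adding one variable and the equation `x_0 = 1`. -/
theorem add_one {k : Type} [CommRing k] {n r : ℕ} (q : Fin r → MvPolynomial (Fin n) k) :
    Nonempty ((MvPolynomial (Fin n) k ⧸ Ideal.span (Set.range q)) ≃+*
      (MvPolynomial (Fin (n + 1)) k ⧸ Ideal.span (Set.range
        (Fin.cons (X 0 - 1) fun i => rename Fin.succ (q i) :
          Fin (r + 1) → MvPolynomial (Fin (n + 1)) k)))) := by
  obtain ⟨x, hxd⟩ : ∃ x : MvPolynomial (Fin (n + 1)) k, x = X 0 - 1 := ⟨_, rfl⟩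
  rw [← hxd]
  obtain ⟨I, hId⟩ : ∃ I : Ideal (MvPolynomial (Fin (n + 1)) k), I = Ideal.span (Set.range
      (Fin.cons x fun i => rename Fin.succ (q i) :
        Fin (r + 1) → MvPolynomial (Fin (n + 1)) k)) := ⟨_, rfl⟩
  rw [← hId]
  have hI : I = Ideal.span {x} ⊔ Ideal.span (Set.range fun i => rename Fin.succ (q i)) := by
    rw [← Ideal.span_union, hId]
    congr 1
    ext y
    simp only [Set.mem_range, Set.mem_union, Set.mem_singleton_iff]
    constructor
    · rintro ⟨i, rfl⟩
      refine Fin.cases ?_ (fun j => ?_) i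
      · exact Or.inl rfl
      · exact Or.inr ⟨j, rfl⟩
    · rintro (rfl | ⟨j, rfl⟩)
      · exact ⟨0, rfl⟩
      · exact ⟨j.succ, rfl⟩
  -- the evaluation
  let φ : MvPolynomial (Fin (n + 1)) k →ₐ[k] MvPolynomial (Fin n) k :=
    aeval (Fin.cons 1 fun i => X i : Fin (n + 1) → MvPolynomial (Fin n) k)
  let ι : MvPolynomial (Fin n) k →ₐ[k] MvPolynomial (Fin (n + 1)) k := rename Fin.succ
  have hφι : ∀ f, φ (ι f) = f := by
    intro f
    have : (φ.comp ι) = AlgHom.id k _ := by
      refine MvPolynomial.algHom_ext fun i => ?_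
      change φ (rename Fin.succ (X i)) = X i
      rw [rename_X]
      change aeval _ (X _) = _
      rw [aeval_X]; rfl
    exact congrArg (fun g => g f) this
  have hx : φ x = 0 := by
    rw [hxd, map_sub, map_one]
    change aeval _ (X _) - 1 = _
    rw [aeval_X]
    simp
  -- every `f` is congruent to `ι (φ f)` modulo `x`
  have hc : ∀ f : MvPolynomial (Fin (n + 1)) k, f - ι (φ f) ∈ Ideal.span {x} := by
    intro f
    have h1 : (Ideal.Quotient.mkₐ k (Ideal.span {x})) =
        ((Ideal.Quotient.mkₐ k (Ideal.span {x})).comp ι).comp φ := by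
      refine MvPolynomial.algHom_ext fun i => ?_
      change Ideal.Quotient.mk _ (X i) = Ideal.Quotient.mk _ (ι (φ (X i)))
      have h2 : φ (X i) = 
          (Fin.cons 1 fun i => X i : Fin (n + 1) → MvPolynomial (Fin n) k) i := aeval_X _ _
      rw [h2]
      refine Fin.cases ?_ (fun j => ?_) i
      · rw [Fin.cons_zero, map_one, map_one]
        have h3 : Ideal.Quotient.mk (Ideal.span {x}) (X 0 - 1) = 0 := by
          rw [← hxd]
          exact Ideal.Quotient.eq_zero_iff_mem.mpr (Ideal.mem_span_singleton_self _)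
        rw [map_sub, map_one, sub_eq_zero] at h3
        exact h3
      · rw [Fin.cons_succ]
        change _ = Ideal.Quotient.mk _ (rename Fin.succ (X j))
        rw [rename_X]
    rw [← Ideal.Quotient.eq_zero_iff_mem, map_sub, sub_eq_zero]
    exact congrArg (fun g => g f) h1
  let F : MvPolynomial (Fin (n + 1)) k →+* MvPolynomial (Fin n) k ⧸ Ideal.span (Set.range q) :=
    (Ideal.Quotient.mk _).comp (φ : MvPolynomial (Fin (n + 1)) k →+* MvPolynomial (Fin n) k)
  have hF : ∀ a ∈ I, F a = 0 := by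
    intro a ha
    have : I ≤ RingHom.ker F := by
      rw [hI, sup_le_iff, Ideal.span_le, Ideal.span_le, Set.singleton_subset_iff]
      refine ⟨?_, ?_⟩
      · change Ideal.Quotient.mk _ (φ x) = 0
        rw [hx, map_zero]
      · rintro _ ⟨i, rfl⟩
        change Ideal.Quotient.mk _ (φ (ι (q i))) = 0
        rw [hφι]
        exact Ideal.Quotient.eq_zero_iff_mem.mpr (Ideal.subset_span ⟨i, rfl⟩)
    exact this ha
  let G : MvPolynomial (Fin n) k →+* MvPolynomial (Fin (n + 1)) k ⧸ I :=
    (Ideal.Quotient.mk I).comp (ι : MvPolynomial (Fin n) k →+* MvPolynomial (Fin (n + 1)) k)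
  have hG : ∀ a ∈ Ideal.span (Set.range q), G a = 0 := by
    intro a ha
    have : Ideal.span (Set.range q) ≤ RingHom.ker G := by
      rw [Ideal.span_le]
      rintro _ ⟨i, rfl⟩
      change Ideal.Quotient.mk I (ι (q i)) = 0
      refine Ideal.Quotient.eq_zero_iff_mem.mpr ?_
      rw [hI]
      exact Ideal.mem_sup_right (Ideal.subset_span ⟨i, rfl⟩)
    exact this ha
  refine ⟨RingEquiv.ofRingHom (Ideal.Quotient.lift _ G hG) (Ideal.Quotient.lift _ F hF) ?_ ?_⟩
  · refine Ideal.Quotient.ringHom_ext (RingHom.ext fun f => ?_)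
    change Ideal.Quotient.mk I (ι (φ f)) = Ideal.Quotient.mk I f
    rw [eq_comm, ← sub_eq_zero, ← map_sub]
    refine Ideal.Quotient.eq_zero_iff_mem.mpr ?_
    rw [hI]
    exact Ideal.mem_sup_left (hc f)
  · refine Ideal.Quotient.ringHom_ext (RingHom.ext fun f => ?_)
    change Ideal.Quotient.mk _ (φ (ι f)) = Ideal.Quotient.mk _ f
    rw [hφι]

/-- Presentations with at least one equation. -/
theorem shape_pos (p : ℕ) (R : Type) [CommRing R] (hR : Fg p R) :
    ∃ (n r : ℕ) (q : Fin (r + 1) → MvPolynomial (Fin n) (ZMod p)), (∀ i, Special (q i)) ∧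
      Nonempty (R ≃+* (MvPolynomial (Fin n) (ZMod p) ⧸ Ideal.span (Set.range q))) := by
  obtain ⟨n, r, q, hq, ⟨e⟩⟩ := W2helper15.TQ.shape_all p R hR
  obtain ⟨e2⟩ := add_one q
  refine ⟨n + 1, r, Fin.cons (X 0 - 1) fun i => rename Fin.succ (q i), ?_, ⟨e.trans e2⟩⟩
  intro i
  refine Fin.cases ?_ (fun j => ?_) i
  · exact Or.inr (Or.inr ⟨0, rfl⟩)
  · exact special_rename (hq j)

end

end Pool.Agent.W2helper42.TQ
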