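import Pool.Agent.W2helper42.TQ.EbDefs
import Pool.Agent.W2helper42.TQ.EmMain
import Pool.Agent.W2helper42.TQ.ShapePos

/-!
# The groups of an affine scheme and of its hypersurface
-/

set_option autoImplicit false

namespace Pool.Agent.W2helper42.TQ

open AlgebraicGeometry CategoryTheory

noncomputable section

theorem ft_sp0 {p : ℕ} {R : Type} [CommRing R] (hR : Fg p R) : FT p (Sp R) :=
  (W2helper33.TQ.ft_iff p R).2 hR

theorem ft_open {p : ℕ} {X U : Scheme.{0}} (j : U ⟶ X) [IsOpenImmersion j] (hX : FT p X) :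
    FT p U := by
  have : QuasiCompact j := by
    obtain ⟨f, hf, hq, _⟩ := hX
    have : IsLocallyNoetherian X := by
      have : IsNoetherianRing (ZMod p) := by
        cases p with
        | zero => exact (inferInstance : IsNoetherianRing ℤ)
        | succ n => infer_instance
      have : IsLocallyNoetherian (Spec (CommRingCat.of (ZMod p))) := by
        rw [isLocallyNoetherian_Spec]
        exact this
      exact LocallyOfFiniteType.isLocallyNoetherian f
    infer_instance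
  exact W2helper75.TQ.ft_comp j hX

theorem ft_cpl {p : ℕ} {B : Type} [CommRing B] (hB : Fg p B) (I : Ideal B) :
    FT p (cpl I : Scheme) := ft_open (cpl I).ι (ft_sp0 hB)

variable {T : EtMot}

/-- Up to finitely generated groups, the groups of `Spec ℤ[x] / (q)` are those of the hypersurface
`y_0 q_0(x) + ... + y_r q_r(x) = 1`. -/
theorem em_point (hT : IsEtBM T) {m r : ℕ} (q : Fin (r + 1) → MvPolynomial (Fin m) ℤ)
    (i n : ℤ) (hn : n < 0) :
    AddGroup.FG (T.H (Sp (CB q)) i n) ↔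
      AddGroup.FG (T.H (Sp (MvPolynomial (Fin m) ℤ ⧸ Ideal.span (Set.range q)))
        (i + 2 * r + 1) (n - r)) := by
  have hZ : Fg 0 ℤ := ⟨RingHom.id ℤ, RingHom.FiniteType.id ℤ⟩
  have hB : Fg 0 (MvPolynomial (Fin m) ℤ) := fg_mv hZ _
  have hA : ∀ k n' : ℤ, n' < 0 → AddGroup.FG (T.H (Sp (MvPolynomial (Fin m) ℤ)) k n') := by
    intro k n' hn'
    obtain ⟨e⟩ := hT.bundle _ _ m (isAffBundle_space ℤ m) (ft_sp0 hZ) k n' hn'
    exact fg_equiv' e.symm (hT.int _ _ (by omega))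
  have hn2 : n - r < 0 := by omega
  obtain ⟨a, b, d, hE⟩ := hT.loc _ _ _ (triple_cpl (Ideal.span (Set.range q))) (ft_sp0 hB)
    (n - r) hn2
  obtain ⟨e⟩ := hT.bundle _ _ r (isAffBundle_cb q) (ft_cpl hB _) i n hn
  constructor
  · intro h
    exact fg_middle (d (i + 2 * r)) (a (i + 2 * r + 1)) (hE _).2.2 (fg_equiv' e h) (hA _ _ hn2)
  · intro h
    exact fg_equiv' e.symm (fg_middle (b (i + 2 * r)) (d (i + 2 * r)) (hE _).2.1 (hA _ _ hn2) h)

theorem nice_fin1 (h1 : T.Iso) (h2 : T.Loc) (N : ℕ) : IsNiceSch 0 fun X => FinGen T X N where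
  iso X Y hX e h := by
    intro i n hn
    obtain ⟨E⟩ := h1 X Y i n hX (by omega) e
    exact fg_equiv' E (h i n hn)
  closed Z X U i j hi hj hX hr h3 h4 := by
    intro k n hn
    obtain ⟨a, b, d, hE⟩ := h2 Z X U ⟨i, j, hi, hj, hr⟩ hX n (by omega)
    obtain ⟨m, rfl⟩ : ∃ m, k = m + 1 := ⟨k - 1, by ring⟩
    exact fg_middle (d m) (a (m + 1)) (hE m).2.2 (h4 m n hn) (h3 (m + 1) n hn)
  total Z X U i j hi hj hX hr h3 h4 := by
    intro k n hn
    obtain ⟨a, b, d, hE⟩ := h2 Z X U ⟨i, j, hi, hj, hr⟩ hX n (by omega)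
    exact fg_middle (a k) (b k) (hE k).1 (h3 k n hn) (h4 k n hn)
  opened Z X U i j hi hj hX hr h3 h4 := by
    intro k n hn
    obtain ⟨a, b, d, hE⟩ := h2 Z X U ⟨i, j, hi, hj, hr⟩ hX n (by omega)
    exact fg_middle (b k) (d k) (hE k).2.1 (h4 k n hn) (h3 (k + 1) n hn)

theorem nice_ev1 (h1 : T.Iso) (h2 : T.Loc) : IsNiceSch 0 fun X => EvFinGen T X where
  iso X Y hX e h := by
    obtain ⟨N, h⟩ := h
    exact ⟨N, (nice_fin1 h1 h2 N).iso X Y hX e h⟩
  closed Z X U i j hi hj hX hr h3 h4 := by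
    obtain ⟨N, h3⟩ := h3
    obtain ⟨M, h4⟩ := h4
    exact ⟨max N M, (nice_fin1 h1 h2 _).closed Z X U i j hi hj hX hr
      (finGen_mono (le_max_left _ _) h3) (finGen_mono (le_max_right _ _) h4)⟩
  total Z X U i j hi hj hX hr h3 h4 := by
    obtain ⟨N, h3⟩ := h3
    obtain ⟨M, h4⟩ := h4
    exact ⟨max N M, (nice_fin1 h1 h2 _).total Z X U i j hi hj hX hr
      (finGen_mono (le_max_left _ _) h3) (finGen_mono (le_max_right _ _) h4)⟩
  opened Z X U i j hi hj hX hr h3 h4 := by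
    obtain ⟨N, h3⟩ := h3
    obtain ⟨M, h4⟩ := h4
    exact ⟨max N M, (nice_fin1 h1 h2 _).opened Z X U i j hi hj hX hr
      (finGen_mono (le_max_left _ _) h3) (finGen_mono (le_max_right _ _) h4)⟩

end

end Pool.Agent.W2helper42.TQ
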