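import Pool.Agent.W2helper42.TQ.Dec
import Pool.Agent.W2helper42.TQ.Stm2
import Pool.Agent.W2helper42.TQ.BC
import Pool.Agent.W2helper6.TQ.Dbl
import Pool.Agent.W2helper84.TQ.Fg
import Pool.Agent.W2helper84.TQ.Dim
import Pool.Agent.W2helper84.TQ.Lin

/-!
# Quadratic equations over rings of bounded dimension
-/

set_option autoImplicit false

namespace Pool.Agent.W2helper42.TQ

open MvPolynomial Pool.Agent.W2helper84.TQ Pool.Agent.W2helper6.TQ

noncomputable section

variable {p : ℕ} {P : (R : Type) → [CommRing R] → Prop}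

/-- The properties of `P` that are used for one quadratic equation (one direction for affine
lines). -/
structure IsNice0 (p : ℕ) (P : (R : Type) → [CommRing R] → Prop) : Prop where
  iso : ∀ (R S : Type) [CommRing R] [CommRing S], (R ≃+* S) → P R → P S
  closed : ∀ (R : Type) [CommRing R] (a : R), Fg p R → P R → P (Localization.Away a) →
    P (R ⧸ Ideal.span {a})
  total : ∀ (R : Type) [CommRing R] (a : R), Fg p R → P (R ⧸ Ideal.span {a}) →
    P (Localization.Away a) → P R
  opened : ∀ (R : Type) [CommRing R] (a : R), Fg p R → P (R ⧸ Ideal.span {a}) → P R →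
    P (Localization.Away a)
  poly : ∀ (R : Type) [CommRing R], Fg p R → P R → P (Polynomial R)
  double : ∀ (R : Type) [CommRing R] (b c : R), Fg p R →
    P (AdjoinRoot (Polynomial.X ^ 2 + Polynomial.C b * Polynomial.X + Polynomial.C c)) → P R

theorem IsNice.to0 (h : IsNice p P) : IsNice0 p P where
  iso := h.iso
  closed := h.closed
  total := h.total
  opened := h.opened
  poly R _ hR h1 := (h.poly R hR).1 h1
  double := h.double

section fg

variable {R : Type} [CommRing R] (h : Fg p R)
include h

theorem fg_quot (I : Ideal R) : Fg p (R ⧸ I) :=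
  s_FG.1 p R _ (Ideal.Quotient.mk I) (s_FG.2.1 _ _ _ Ideal.Quotient.mk_surjective) h

theorem fg_away (a : R) : Fg p (Localization.Away a) :=
  s_FG.1 p R _ _ (s_FG.2.2.1 R a) h

theorem fg_poly : Fg p (Polynomial R) := s_FG.1 p R _ _ (s_FG.2.2.2.1 R) h

theorem fg_mv (σ : Type) [Finite σ] : Fg p (MvPolynomial σ R) :=
  s_FG.1 p R _ _ (s_FG.2.2.2.2.1 R σ) h

theorem fg_root (f : Polynomial R) : Fg p (AdjoinRoot f) :=
  s_FG.1 p R _ _ (s_FG.2.2.2.2.2 R f) h

theorem fg_equiv {S : Type} [CommRing S] (e : R ≃+* S) : Fg p S :=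
  s_FG.1 p R _ (e : R →+* S) (s_FG.2.1 _ _ _ e.surjective) h

end fg

variable {d : ℕ}

/-- Rings of finite type of dimension at most `d`. -/
def K (p d : ℕ) (R : Type) [CommRing R] : Prop := Fg p R ∧ ringKrullDim R ≤ d

theorem K.quot {R : Type} [CommRing R] (h : K p d R) (I : Ideal R) :
    K p d (R ⧸ I) := ⟨fg_quot h.1 I, (ringKrullDim_quotient_le I).trans h.2⟩

theorem K.away {R : Type} [CommRing R] (h : K p d R) (a : R) :
    K p d (Localization.Away a) := ⟨fg_away h.1 a, (dim_loc R a).trans h.2⟩

theorem K.root {R : Type} [CommRing R] (h : K p d R)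
    {f : Polynomial R} (hf : f.Monic) : K p d (AdjoinRoot f) := by
  have : Module.Finite R (AdjoinRoot f) := hf.finite_adjoinRoot
  exact ⟨fg_root h.1 f, (dim_int R (AdjoinRoot f) inferInstance).trans h.2⟩

/-- The statement for at most `n` variables. -/
def Q (p d : ℕ) (P : (R : Type) → [CommRing R] → Prop) (n : ℕ) : Prop :=
  ∀ (R σ : Type) [CommRing R] [Fintype σ], Fintype.card σ ≤ n → K p d R →
    ∀ g : MvPolynomial σ R, g.totalDegree ≤ 2 → P (MvPolynomial σ R ⧸ Ideal.span {g})

theorem quot_eq {A : Type} [CommRing A] {I J : Ideal A} (h : I = J) (hI : P (A ⧸ I)) :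
    P (A ⧸ J) := by
  subst h; exact hI

theorem comp_map {σ R S T : Type} [CommRing R] [CommRing S] [CommRing T] (f : R →+* S)
    (g : S →+* T) : (MvPolynomial.map g).comp (MvPolynomial.map f) =
      (MvPolynomial.map (g.comp f) : MvPolynomial σ R →+* MvPolynomial σ T) := by
  ext x <;> simp

theorem totalDegree_X_le {σ R : Type} [CommRing R] (i : σ) :
    (X i : MvPolynomial σ R).totalDegree ≤ 1 := by
  cases subsingleton_or_nontrivial R
  · have : (X i : MvPolynomial σ R) = 0 := Subsingleton.elim _ _
    rw [this]; simp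
  · rw [totalDegree_X]

section split

variable (hP : IsNice0 p P)
include hP

theorem split1 {R σ : Type} [CommRing R] [Finite σ] (hR : Fg p R)
    (I : Ideal (MvPolynomial σ R)) (a : R)
    (h1 : P (MvPolynomial σ (R ⧸ Ideal.span {a}) ⧸
      I.map (MvPolynomial.map (Ideal.Quotient.mk (Ideal.span {a})))))
    (h2 : P (MvPolynomial σ (Localization.Away a) ⧸
      I.map (MvPolynomial.map (algebraMap R (Localization.Away a))))) :
    P (MvPolynomial σ R ⧸ I) := by
  obtain ⟨⟨e1⟩, ⟨e2⟩⟩ := piece_BC R σ I a
  exact hP.total _ (Ideal.Quotient.mk I (C a)) (fg_quot (fg_mv hR σ) I)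
    (hP.iso _ _ e1.symm h1) (hP.iso _ _ e2.symm h2)

theorem split_fin (n : ℕ) : ∀ (R σ : Type) [CommRing R] [Finite σ] (a : Fin n → R), K p d R →
    ∀ (I : Ideal (MvPolynomial σ R)),
      (∀ (S : Type) [CommRing S] (f : R →+* S), K p d S → (∀ i, f (a i) = 0 ∨ IsUnit (f (a i))) →
        P (MvPolynomial σ S ⧸ I.map (MvPolynomial.map f))) → P (MvPolynomial σ R ⧸ I) := by
  induction n with
  | zero =>
    intro R σ _ _ a hR I H
    have := H R (RingHom.id R) hR (fun i => i.elim0)
    have e : I.map (MvPolynomial.map (RingHom.id R)) = I := by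
      have : (MvPolynomial.map (RingHom.id R) : MvPolynomial σ R →+* _) = RingHom.id _ := by
        ext x <;> simp
      rw [this, Ideal.map_id]
    exact quot_eq e this
  | succ n ih =>
    intro R σ _ _ a hR I H
    refine split1 hP hR.1 I (a 0) ?_ ?_
    · refine ih _ _ (fun i => Ideal.Quotient.mk _ (a i.succ)) (hR.quot _) _ ?_
      intro S _ f hS hf
      have := H S (f.comp (Ideal.Quotient.mk (Ideal.span {a 0}))) hS ?_
      · rw [← comp_map] at this
        exact quot_eq (Ideal.map_map _ _).symm this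
      · intro i
        refine Fin.cases ?_ (fun i => ?_) i
        · left
          have : Ideal.Quotient.mk (Ideal.span {a 0}) (a 0) = 0 :=
            Ideal.Quotient.eq_zero_iff_mem.mpr (Ideal.mem_span_singleton_self _)
          rw [RingHom.comp_apply, this, map_zero]
        · exact hf i
    · refine ih _ _ (fun i => algebraMap _ _ (a i.succ)) (hR.away _) _ ?_
      intro S _ f hS hf
      have := H S (f.comp (algebraMap R (Localization.Away (a 0)))) hS ?_
      · rw [← comp_map] at this
        exact quot_eq (Ideal.map_map _ _).symm this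
      · intro i
        refine Fin.cases ?_ (fun i => ?_) i
        · right
          exact (IsLocalization.Away.algebraMap_isUnit (S := Localization.Away (a 0)) (a 0)).map f
        · exact hf i

end split

theorem td_lin {R τ : Type} [CommRing R] (e : R) {m : MvPolynomial τ R}
    (hm : m.totalDegree ≤ 1) :
    (C e * X none + rename some m : MvPolynomial (Option τ) R).totalDegree ≤ 1 := by
  refine (totalDegree_add _ _).trans (max_le ?_ ((totalDegree_rename_le _ _).trans hm))
  refine (totalDegree_mul _ _).trans ?_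
  rw [totalDegree_C, zero_add]
  exact totalDegree_X_le _

theorem td_quad {R τ : Type} [CommRing R] (e : R) {m h : MvPolynomial τ R}
    (hm : m.totalDegree ≤ 1) (hh : h.totalDegree ≤ 2) :
    (C e * X none ^ 2 + rename some m * X none + rename some h :
      MvPolynomial (Option τ) R).totalDegree ≤ 2 := by
  have hX := totalDegree_X_le (R := R) (none : Option τ)
  refine (totalDegree_add _ _).trans (max_le ((totalDegree_add _ _).trans (max_le ?_ ?_))
    ((totalDegree_rename_le _ _).trans hh))
  · refine (totalDegree_mul _ _).trans ?_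
    have := totalDegree_pow (X none : MvPolynomial (Option τ) R) 2
    rw [totalDegree_C, zero_add]
    omega
  · refine (totalDegree_mul _ _).trans ?_
    have := (totalDegree_rename_le (some : τ → Option τ) m).trans hm
    omega

theorem equivLeft_quad {R τ : Type} [CommRing R] (c : R) (l h : MvPolynomial τ R) :
    optionEquivLeft R τ (C c * X none ^ 2 + rename some l * X none + rename some h) =
      Polynomial.C (C c) * Polynomial.X ^ 2 + Polynomial.C l * Polynomial.X + Polynomial.C h := by
  rw [map_add, map_add, map_mul, map_mul, map_pow, optionEquivLeft_X_none, optionEquivLeft_C,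
    equiv_rename, equiv_rename]

theorem equivLeft_lin {R τ : Type} [CommRing R] (c : R) (h : MvPolynomial τ R) :
    optionEquivLeft R τ (C c * X none + rename some h) =
      Polynomial.C (C c) * Polynomial.X + Polynomial.C h := by
  rw [map_add, map_mul, optionEquivLeft_X_none, optionEquivLeft_C, equiv_rename]

/-- Transport along an isomorphism. -/
theorem transport (hP : IsNice0 p P) {A B : Type} [CommRing A] [CommRing B] (e : A ≃+* B)
    (s : Set A) (h : P (B ⧸ Ideal.span (e '' s))) : P (A ⧸ Ideal.span s) :=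
  hP.iso _ _ (Ideal.quotientEquiv (Ideal.span s) (Ideal.span (e '' s)) e
    (by rw [Ideal.map_span]; rfl)).symm h

section pair

variable (hP : IsNice0 p P)
include hP

theorem pair_unit {n : ℕ} (hQ : Q p d P n) {R τ : Type} [CommRing R] [Fintype τ]
    (hτ : Fintype.card τ ≤ n) (hR : K p d R) (l h : MvPolynomial τ R) (hl : l.totalDegree ≤ 1)
    (hh : h.totalDegree ≤ 2) (k : τ) (hk : IsUnit (l.coeff (Finsupp.single k 1))) :
    P (MvPolynomial τ R ⧸ Ideal.span {l, h}) := by
  classical
  let e : τ ≃ Option {j // j ≠ k} := (Equiv.optionSubtypeNe k).symm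
  have hek : e k = none := by simp [e]
  let Ψ : MvPolynomial τ R ≃+* MvPolynomial (Option {j // j ≠ k}) R :=
    (renameEquiv R e).toRingEquiv
  have h1 : (rename e l).totalDegree ≤ 1 := (totalDegree_rename_le _ _).trans hl
  have h2 : (rename e h).totalDegree ≤ 2 := (totalDegree_rename_le _ _).trans hh
  obtain ⟨m, hm, hl'⟩ := decomp1 h1
  obtain ⟨c, l2, h3, hl2, hh3, hh'⟩ := decomp2 h2
  have hco : (rename e l).coeff (Finsupp.single none 1) = l.coeff (Finsupp.single k 1) := by
    rw [← hek, ← coeff_rename_mapDomain e e.injective l (Finsupp.single k 1),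
      Finsupp.mapDomain_single]
  rw [hco] at hl'
  obtain ⟨u, hu⟩ := hk
  rw [← hu] at hl'
  refine transport hP Ψ _ ?_
  have hs : Ψ '' {l, h} = {rename e l, rename e h} := by
    rw [Set.image_pair]; rfl
  rw [hs]
  refine transport hP (optionEquivLeft R _).toRingEquiv _ ?_
  have hs2 : (optionEquivLeft R {j // j ≠ k}).toRingEquiv '' {rename e l, rename e h} =
      {Polynomial.C (C (u : R)) * Polynomial.X + Polynomial.C m,
        Polynomial.C (C c) * Polynomial.X ^ 2 + Polynomial.C l2 * Polynomial.X +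
          Polynomial.C h3} := by
    rw [Set.image_pair]
    congr 1
    · rw [hl']; exact equivLeft_lin _ _
    · rw [hh']; exact congrArg _ (equivLeft_quad _ _ _)
  rw [hs2]
  obtain ⟨E⟩ := s_ELIM (MvPolynomial {j // j ≠ k} R) (C (u : R)) (C ((u⁻¹ : Rˣ) : R)) m
    (Polynomial.C (C c) * Polynomial.X ^ 2 + Polynomial.C l2 * Polynomial.X +
          Polynomial.C h3) (by rw [← C_mul]; simp)
  refine hP.iso _ _ E.symm ?_
  apply hQ R {j // j ≠ k} _ hR
  · simp only [Polynomial.eval_add, Polynomial.eval_mul, Polynomial.eval_C, Polynomial.eval_pow,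
      Polynomial.eval_X]
    have hs : (-(C ((u⁻¹ : Rˣ) : R) * m)).totalDegree ≤ 1 := by
      rw [totalDegree_neg]
      refine (totalDegree_mul _ _).trans ?_
      rw [totalDegree_C]; omega
    refine (totalDegree_add _ _).trans (max_le ((totalDegree_add _ _).trans (max_le ?_ ?_)) hh3)
    · refine (totalDegree_mul _ _).trans ?_
      have := totalDegree_pow (-(C ((u⁻¹ : Rˣ) : R) * m)) 2
      rw [totalDegree_C]
      omega
    · refine (totalDegree_mul _ _).trans ?_
      omega
  · refine le_trans ?_ hτ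
    exact Fintype.card_subtype_le _

theorem pair_zero {n : ℕ} (hQ : Q p d P n) {R τ : Type} [CommRing R] [Fintype τ]
    (hτ : Fintype.card τ ≤ n) (hR : K p d R) (r : R) (h : MvPolynomial τ R)
    (hh : h.totalDegree ≤ 2) :
    P (MvPolynomial τ R ⧸ Ideal.span {C r, h}) := by
  obtain ⟨⟨e⟩, _⟩ := piece_BC R τ (Ideal.span {h}) r
  have h1 := hQ (R ⧸ Ideal.span {r}) τ hτ (hR.quot _) _
    (totalDegree_map' (Ideal.Quotient.mk (Ideal.span {r})) hh)
  have h2 : (Ideal.span {h}).map (MvPolynomial.map (Ideal.Quotient.mk (Ideal.span {r}))) =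
      Ideal.span {MvPolynomial.map (Ideal.Quotient.mk (Ideal.span {r})) h} := by
    rw [Ideal.map_span, Set.image_singleton]
  have h3 := quot_eq h2.symm h1
  have h4 : P ((MvPolynomial τ R ⧸ Ideal.span {h}) ⧸
      Ideal.span {Ideal.Quotient.mk (Ideal.span {h}) (C r)}) := hP.iso _ _ e.symm h3
  have h5 : (Ideal.span {C r} : Ideal (MvPolynomial τ R)).map (Ideal.Quotient.mk
      (Ideal.span {h})) = Ideal.span {Ideal.Quotient.mk (Ideal.span {h}) (C r)} := by
    rw [Ideal.map_span, Set.image_singleton]
  have h6 := quot_eq h5.symm h4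
  have h7 : P (MvPolynomial τ R ⧸ (Ideal.span {h} ⊔ Ideal.span {C r})) :=
    hP.iso _ _ (DoubleQuot.quotQuotEquivQuotSup (Ideal.span {h}) (Ideal.span {C r})) h6
  refine quot_eq ?_ h7
  rw [Ideal.span_insert, sup_comm]

theorem pair {n : ℕ} (hQ : Q p d P n) {R τ : Type} [CommRing R] [Fintype τ]
    (hτ : Fintype.card τ ≤ n) (hR : K p d R) (l h : MvPolynomial τ R) (hl : l.totalDegree ≤ 1)
    (hh : h.totalDegree ≤ 2) : P (MvPolynomial τ R ⧸ Ideal.span {l, h}) := by
  classical
  let e := Fintype.equivFin τ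
  refine split_fin hP (Fintype.card τ) R τ
    (fun i => l.coeff (Finsupp.single (e.symm i) 1)) hR _ ?_
  intro S _ f hS hz
  have hm : (Ideal.span {l, h}).map (MvPolynomial.map f) =
      Ideal.span {MvPolynomial.map f l, MvPolynomial.map f h} := by
    rw [Ideal.map_span, Set.image_pair]
  refine quot_eq hm.symm ?_
  have hl' := totalDegree_map' f hl
  have hh' := totalDegree_map' f hh
  by_cases hex : ∃ k, IsUnit ((MvPolynomial.map f l).coeff (Finsupp.single k 1))
  · obtain ⟨k, hk⟩ := hex
    exact pair_unit hP hQ hτ hS _ _ hl' hh' k hk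
  · have h0 : ∀ k, (MvPolynomial.map f l).coeff (Finsupp.single k 1) = 0 := by
      intro k
      have := hz (e k)
      simp only [Equiv.symm_apply_apply] at this
      rw [coeff_map]
      refine this.resolve_right fun hu => hex ⟨k, ?_⟩
      rw [coeff_map]; exact hu
    rw [eq_C_of hl' h0]
    exact pair_zero hP hQ hτ hS _ _ hh'

theorem typeA {n : ℕ} (hQ : Q p d P n) {R τ : Type} [CommRing R] [Fintype τ]
    (hτ : Fintype.card τ ≤ n) (hR : K p d R) (l h : MvPolynomial τ R) (hl : l.totalDegree ≤ 1)
    (hh : h.totalDegree ≤ 2) :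
    P (Polynomial (MvPolynomial τ R) ⧸
      Ideal.span {Polynomial.C l * Polynomial.X + Polynomial.C h}) := by
  obtain ⟨⟨e1⟩, ⟨e2⟩⟩ := s_LIN (MvPolynomial τ R) l h
  have hB : Fg p (MvPolynomial τ R) := fg_mv hR.1 τ
  have hPB : P (MvPolynomial τ R) := by
    have h1 := hQ R τ hτ hR 0 (by simp)
    have h2 : (Ideal.span {0} : Ideal (MvPolynomial τ R)) = ⊥ := by simp
    exact hP.iso _ _ ((Ideal.quotEquivOfEq h2).trans (RingEquiv.quotientBot _)) h1
  refine hP.total _ (Ideal.Quotient.mk _ (Polynomial.C l)) (fg_quot (fg_poly hB) _)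
    (hP.iso _ _ e1.symm (hP.poly _ (fg_quot hB _)
      (pair hP hQ hτ hR l h hl hh)))
    (hP.iso _ _ e2.symm (hP.opened _ l hB (hQ R τ hτ hR l (by omega)) hPB))

end pair

end

end Pool.Agent.W2helper42.TQ
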