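import Pool.Agent.W2helper42.TQ.TbDefs
import Pool.Agent.W2helper42.TQ.EmMain
import Pool.Agent.W495.FM.Hom

/-!
# Jannsen's conjecture as a nice property of schemes
-/

set_option autoImplicit false

namespace Pool.Agent.W2helper42.TQ

open AlgebraicGeometry CategoryTheory

noncomputable section

variable {Ω : Type} [Field Ω] {p : ℕ} {T : Theory Ω}

theorem IsTheory.homs (hT : IsTheory p T) {V : Type} (f : V → Scheme.{0})
    (hf : ∀ v, FT p (f v)) : W495.FM.IsHomology (T.on f) where
  finite v i j := (hT.hom (f v) (hf v)).finite () i j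
  lin v i j := (hT.hom (f v) (hf v)).lin () i j
  add v i j := (hT.hom (f v) (hf v)).add () i j
  frob_reg v i j := (hT.hom (f v) (hf v)).frob_reg () i j

theorem tb_on {V : Type} (f : V → Scheme.{0}) (v : V) :
    W495.FM.TB (T.on f) v ↔ T.TB (f v) := Iff.rfl

variable [CharZero Ω]

theorem Theory.Summand.tb (hT : IsTheory p T) {X Y : Scheme.{0}} {r : ℤ} (hX : FT p X)
    (hY : FT p Y) (h : T.Summand X Y r) (hTB : T.TB Y) : T.TB X := by
  have hh : W495.FM.IsHomology (T.on ![X, Y]) := hT.homs _ (by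
    intro v
    fin_cases v
    · exact hX
    · exact hY)
  exact W495.FM.tb_summand hh h (fun _ => hTB)

theorem ft_triple {Z X U : Scheme.{0}} (h : Triple Z X U) (hX : FT p X) :
    ∀ v, FT p (![Z, X, U] v) := by
  obtain ⟨i, j, hi, hj, _⟩ := h
  intro v
  have : QuasiCompact j := by
    obtain ⟨f, hf, hq, _⟩ := hX
    have : IsLocallyNoetherian X := by
      have : IsNoetherianRing (ZMod p) := by
        cases p with
        | zero => exact (inferInstance : IsNoetherianRing ℤ)
        | succ n => infer_instance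
      have : IsLocallyNoetherian (Spec (CommRingCat.of (ZMod p))) := by
        rw [isLocallyNoetherian_Spec]
        exact this
      exact LocallyOfFiniteType.isLocallyNoetherian f
    infer_instance
  have h1 : FT p Z := W2helper75.TQ.ft_comp i hX
  have h2 : FT p U := W2helper75.TQ.ft_comp j hX
  fin_cases v
  · exact h1
  · exact hX
  · exact h2

theorem nice_tb (hT : IsTheory p T) : IsNiceSch p fun X => T.TB X where
  iso X Y hX e h := (hT.iso X Y hX e).tb hT
    (by
      have : IsIso e.inv := inferInstance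
      exact W2helper75.TQ.ft_comp e.inv hX) hX h
  closed Z X U i j hi hj hX hr h1 h2 := by
    have h3 : Triple Z X U := ⟨i, j, hi, hj, hr⟩
    exact W495.FM.tb_closed (hT.homs _ (ft_triple h3 hX)) (hT.loc Z X U h3 hX) h1 h2
  total Z X U i j hi hj hX hr h1 h2 := by
    have h3 : Triple Z X U := ⟨i, j, hi, hj, hr⟩
    exact W495.FM.tb_total (hT.homs _ (ft_triple h3 hX)) (hT.loc Z X U h3 hX) h1 h2
  opened Z X U i j hi hj hX hr h1 h2 := by
    have h3 : Triple Z X U := ⟨i, j, hi, hj, hr⟩
    exact W495.FM.tb_opened (hT.homs _ (ft_triple h3 hX)) (hT.loc Z X U h3 hX) h1 h2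

theorem ft_sp {R : Type} [CommRing R] (hR : Fg p R) : FT p (Sp R) := by
  obtain ⟨f, hf⟩ := hR
  refine ⟨Spec.map (CommRingCat.ofHom f), ?_, inferInstance, inferInstance⟩
  exact (HasRingHomProperty.Spec_iff (P := @LocallyOfFiniteType)).mpr hf

theorem tb_line (hT : IsTheory p T) {R : Type} [CommRing R] (hR : Fg p R) :
    T.TB (Sp R) ↔ T.TB (Sp (Polynomial R)) :=
  ⟨(hT.line R hR).tb hT (ft_sp (fg_poly hR)) (ft_sp hR),
    (hT.line' R hR).tb hT (ft_sp hR) (ft_sp (fg_poly hR))⟩

theorem tb_double (hT : IsTheory p T) {R : Type} [CommRing R] (b c : R) (hR : Fg p R)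
    (h : T.TB (Db R b c)) : T.TB (Sp R) :=
  (hT.double R b c hR).tb hT (ft_sp hR) (ft_sp (fg_root hR _)) h

theorem tb_nice (hT : IsTheory p T) : IsNice p (PR p fun X => T.TB X) :=
  nice_ring (nice_tb hT) (fun _ _ hR => tb_line hT hR) (fun _ _ b c hR h => tb_double hT b c hR h)

end

end Pool.Agent.W2helper42.TQ
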