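import Pool.Agent.W2helper42.TQ.TpDefs
import Pool.Agent.W2helper42.TQ.EmPoint
import Pool.Agent.W2helper42.TQ.TbMain
import Pool.Agent.W495.FM.Hom

/-!
# Jannsen's conjecture for an affine scheme and for its hypersurface
-/

set_option autoImplicit false

namespace Pool.Agent.W2helper42.TQ

open AlgebraicGeometry CategoryTheory

noncomputable section

variable {Ω : Type} [Field Ω] {p : ℕ} {T : Theory Ω}

theorem IsTheoryB.homs (hT : IsTheoryB p T) {V : Type} (f : V → Scheme.{0})
    (hf : ∀ v, FT p (f v)) : W495.FM.IsHomology (T.on f) where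
  finite v i j := (hT.hom (f v) (hf v)).finite () i j
  lin v i j := (hT.hom (f v) (hf v)).lin () i j
  add v i j := (hT.hom (f v) (hf v)).add () i j
  frob_reg v i j := (hT.hom (f v) (hf v)).frob_reg () i j

variable [CharZero Ω]

theorem Theory.Summand.tb1 (hT : IsTheoryB p T) {X Y : Scheme.{0}} {r : ℤ} (hX : FT p X)
    (hY : FT p Y) (h : T.Summand X Y r) (hTB : T.TB Y) : T.TB X := by
  have hh : W495.FM.IsHomology (T.on ![X, Y]) := hT.homs _ (by
    intro v
    fin_cases v
    · exact hX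
    · exact hY)
  exact W495.FM.tb_summand hh h (fun _ => hTB)

theorem nice_tb1 (hT : IsTheoryB p T) : IsNiceSch p fun X => T.TB X where
  iso X Y hX e h := (hT.iso X Y hX e).tb1 hT
    (by
      have : IsIso e.inv := inferInstance
      exact W2helper75.TQ.ft_comp e.inv hX) hX h
  closed Z X U i j hi hj hX hr h1 h2 := by
    have h3 : Triple Z X U := ⟨i, j, hi, hj, hr⟩
    exact W495.FM.tb_closed (hT.homs _ (ft_triple h3 hX)) (hT.loc Z X U h3 hX) h1 h2
  total Z X U i j hi hj hX hr h1 h2 := by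
    have h3 : Triple Z X U := ⟨i, j, hi, hj, hr⟩
    exact W495.FM.tb_total (hT.homs _ (ft_triple h3 hX)) (hT.loc Z X U h3 hX) h1 h2
  opened Z X U i j hi hj hX hr h1 h2 := by
    have h3 : Triple Z X U := ⟨i, j, hi, hj, hr⟩
    exact W495.FM.tb_opened (hT.homs _ (ft_triple h3 hX)) (hT.loc Z X U h3 hX) h1 h2

theorem tb_space (hT : IsTheoryB p T) (m : ℕ) : T.TB (Sp (MvPolynomial (Fin m) (ZMod p))) := by
  have hZ : Fg p (ZMod p) := ⟨RingHom.id _, RingHom.FiniteType.id _⟩
  exact (hT.bundle _ _ m (isAffBundle_space (ZMod p) m) (ft_sp0 hZ)).1.tb1 hT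
    (ft_sp0 (fg_mv hZ _)) (ft_sp0 hZ) hT.point

/-- Jannsen's conjecture for `Spec F_p[x] / (q)` is equivalent to the conjecture for the hypersurface
`y_0 q_0(x) + ... + y_r q_r(x) = 1`. -/
theorem tb_point (hT : IsTheoryB p T) {m r : ℕ} (q : Fin (r + 1) → MvPolynomial (Fin m) (ZMod p)) :
    T.TB (Sp (CB q)) ↔
      T.TB (Sp (MvPolynomial (Fin m) (ZMod p) ⧸ Ideal.span (Set.range q))) := by
  have hZ : Fg p (ZMod p) := ⟨RingHom.id _, RingHom.FiniteType.id _⟩
  have hB : Fg p (MvPolynomial (Fin m) (ZMod p)) := fg_mv hZ _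
  have hC : FT p (Sp (CB q)) := ft_sp0 (fg_quot (fg_mv hB _) _)
  have hU := ft_cpl hB (Ideal.span (Set.range q))
  have hb := hT.bundle _ _ r (isAffBundle_cb q) hU
  have hA := tb_space hT m
  have h3 := triple_cpl (Ideal.span (Set.range q))
  have hf := ft_triple h3 (ft_sp0 hB)
  have hl := hT.loc _ _ _ h3 (ft_sp0 hB)
  constructor
  · intro h
    have h2 : T.TB (cpl (Ideal.span (Set.range q)) : Scheme) := hb.2.tb1 hT hU hC h
    exact W495.FM.tb_closed (hT.homs _ hf) hl hA h2
  · intro h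
    refine hb.1.tb1 hT hC hU ?_
    exact W495.FM.tb_opened (hT.homs _ hf) hl h hA

end

end Pool.Agent.W2helper42.TQ
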