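import Pool.Agent.W2helper42.TQ.Main

/-!
# The shear that makes a quadratic polynomial linear in one variable
-/

set_option autoImplicit false

namespace Pool.Agent.W2helper42.TQ

open MvPolynomial Pool.Agent.W2helper84.TQ Pool.Agent.W2helper6.TQ

noncomputable section

variable {S τ : Type} [CommRing S]

/-- The exchange of the first two variables, composed with a shear. -/
def shearFun (w : S) : Option (Option τ) → MvPolynomial (Option (Option τ)) S
  | none => X (some none) + C w * X none
  | some none => X none
  | some (some k) => X (some (some k))

/-- Its inverse. -/
def shearInv (w : S) : Option (Option τ) → MvPolynomial (Option (Option τ)) S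
  | none => X (some none)
  | some none => X none - C w * X (some none)
  | some (some k) => X (some (some k))

/-- The automorphism. -/
def shear (w : S) : MvPolynomial (Option (Option τ)) S ≃ₐ[S] MvPolynomial (Option (Option τ)) S :=
  AlgEquiv.ofAlgHom (aeval (shearFun w)) (aeval (shearInv w))
    (by
      apply MvPolynomial.algHom_ext
      intro i
      rcases i with _ | _ | k <;> simp [shearFun, shearInv, algebraMap_eq])
    (by
      apply MvPolynomial.algHom_ext
      intro i
      rcases i with _ | _ | k <;> simp [shearFun, shearInv, algebraMap_eq])

theorem shear_X (w : S) (i : Option (Option τ)) : shear w (X i) = shearFun w i := by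
  simp [shear]

theorem shear_C (w a : S) : shear (τ := τ) w (C a) = C a := by
  simp [shear, algebraMap_eq]

theorem shear_rename (w : S) (q : MvPolynomial τ S) :
    shear w (rename some (rename some q)) = rename some (rename some q) := by
  induction q using MvPolynomial.induction_on with
  | C a => simp [shear_C]
  | add p q hp hq => simp only [map_add, hp, hq]
  | mul_X p k hp => simp only [map_mul, hp, rename_X, shear_X, shearFun]

/-- The quadratic polynomial. -/
def quad2 (c d c' : S) (m1 m2 h : MvPolynomial τ S) : MvPolynomial (Option (Option τ)) S :=
  C c * X none ^ 2 + rename some (C d * X none + rename some m1) * X none +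
    rename some (C c' * X none ^ 2 + rename some m2 * X none + rename some h)

theorem shear_quad2 (w c d c' : S) (hw : c * w ^ 2 + d * w + c' = 0)
    (m1 m2 h : MvPolynomial τ S) :
    optionEquivLeft S (Option τ) (shear w (quad2 c d c' m1 m2 h)) =
      Polynomial.C (C (d + 2 * c * w) * X none + rename some (m2 + C w * m1)) * Polynomial.X +
        Polynomial.C (C c * X none ^ 2 + rename some m1 * X none + rename some h) := by
  have h0 : (C c * C w ^ 2 + C d * C w + C c' : MvPolynomial (Option (Option τ)) S) = 0 := by
    rw [← C_pow, ← C_mul, ← C_mul, ← C_add, ← C_add, hw, C_0]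
  have h1 : shear w (quad2 c d c' m1 m2 h) =
      rename some (C (d + 2 * c * w) * X none + rename some (m2 + C w * m1)) * X none +
        rename some (C c * X none ^ 2 + rename some m1 * X none + rename some h) := by
    simp only [quad2, map_add, map_mul, map_pow, rename_X, rename_C, shear_X, shear_C,
      shear_rename, shearFun, map_ofNat]
    linear_combination (X none ^ 2) * h0
  rw [h1, map_add, map_mul, optionEquivLeft_X_none, equiv_rename, equiv_rename]

theorem map_quad2 {T : Type} [CommRing T] (f : S →+* T) (c d c' : S)
    (m1 m2 h : MvPolynomial τ S) :
    MvPolynomial.map f (quad2 c d c' m1 m2 h) =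
      quad2 (f c) (f d) (f c') (MvPolynomial.map f m1) (MvPolynomial.map f m2)
        (MvPolynomial.map f h) := by
  simp only [quad2, map_add, map_mul, map_pow, map_rename, map_C, map_X, rename_X, rename_C]

end

end Pool.Agent.W2helper42.TQ
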