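import Pool.Agent.W2helper42.TQ.Shear

/-!
# The main theorem on quadratic equations over rings of bounded dimension
-/

set_option autoImplicit false

namespace Pool.Agent.W2helper42.TQ

open MvPolynomial Pool.Agent.W2helper84.TQ Pool.Agent.W2helper6.TQ

noncomputable section

variable {p d : ℕ} {P : (R : Type) → [CommRing R] → Prop}

theorem monic2 {A : Type} [CommRing A] (b c : A) :
    (Polynomial.X ^ 2 + Polynomial.C b * Polynomial.X + Polynomial.C c).Monic := by
  monicity!

theorem map_singleton {A B : Type} [CommRing A] [CommRing B] (f : A →+* B) (a : A) :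
    (Ideal.span {a}).map f = Ideal.span {f a} := by
  rw [Ideal.map_span, Set.image_singleton]

theorem transport1 (hP : IsNice0 p P) {A B : Type} [CommRing A] [CommRing B] (e : A ≃+* B)
    (a : A) (h : P (B ⧸ Ideal.span {e a})) : P (A ⧸ Ideal.span {a}) := by
  refine transport hP e {a} ?_
  rw [Set.image_singleton]
  exact h

/-- The unit case with at least two variables. -/
theorem unit2 (hP : IsNice0 p P) {n : ℕ} (hQ : Q p d P n) {S τ : Type} [CommRing S]
    [Fintype τ] (hτ : Fintype.card (Option τ) ≤ n) (hS : K p d S) (c a c' : S) (hc : IsUnit c)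
    (m1 m2 h : MvPolynomial τ S) (h1 : m1.totalDegree ≤ 1) (h2 : m2.totalDegree ≤ 1)
    (hh : h.totalDegree ≤ 2) :
    P (MvPolynomial (Option (Option τ)) S ⧸ Ideal.span {quad2 c a c' m1 m2 h}) := by
  obtain ⟨u, rfl⟩ := hc
  obtain ⟨e⟩ := piece_DBL S (Option (Option τ)) (Ideal.span {quad2 (u : S) a c' m1 m2 h})
    (((u⁻¹ : Sˣ) : S) * a) (((u⁻¹ : Sˣ) : S) * c')
  refine hP.double _ _ _ (fg_quot (fg_mv hS.1 _) _) (hP.iso _ _ e.symm ?_)
  set f : Polynomial S := Polynomial.X ^ 2 +
    Polynomial.C (((u⁻¹ : Sˣ) : S) * a) * Polynomial.X + Polynomial.C (((u⁻¹ : Sˣ) : S) * c')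
    with hf
  have hmon : f.Monic := by
    rw [hf]
    exact monic2 _ _
  have hK : K p d (AdjoinRoot f) := hS.root hmon
  set w := AdjoinRoot.root f with hw
  have hw0 : AdjoinRoot.of f u * w ^ 2 + AdjoinRoot.of f a * w + AdjoinRoot.of f c' = 0 := by
    have h3 : w ^ 2 + AdjoinRoot.of f (((u⁻¹ : Sˣ) : S) * a) * w +
        AdjoinRoot.of f (((u⁻¹ : Sˣ) : S) * c') = 0 := by
      have := AdjoinRoot.eval₂_root f
      rw [hf, Polynomial.eval₂_add, Polynomial.eval₂_add, Polynomial.eval₂_mul,
        Polynomial.eval₂_pow, Polynomial.eval₂_X, Polynomial.eval₂_C, Polynomial.eval₂_C] at this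
      exact this
    have h4 : AdjoinRoot.of f u * AdjoinRoot.of f ((u⁻¹ : Sˣ) : S) = 1 := by
      rw [← map_mul]; simp
    rw [map_mul, map_mul] at h3
    linear_combination (AdjoinRoot.of f u) * h3 - (AdjoinRoot.of f a * w +
      AdjoinRoot.of f c') * h4
  refine quot_eq (map_singleton _ _).symm ?_
  rw [map_quad2]
  refine transport1 hP (shear w).toRingEquiv _ ?_
  refine transport1 hP (optionEquivLeft (AdjoinRoot f) (Option τ)).toRingEquiv _ ?_
  have key := shear_quad2 w (AdjoinRoot.of f u) (AdjoinRoot.of f a) (AdjoinRoot.of f c') hw0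
    (MvPolynomial.map (AdjoinRoot.of f) m1) (MvPolynomial.map (AdjoinRoot.of f) m2)
    (MvPolynomial.map (AdjoinRoot.of f) h)
  have key2 : (optionEquivLeft (AdjoinRoot f) (Option τ)).toRingEquiv ((shear w).toRingEquiv
      (quad2 (AdjoinRoot.of f u) (AdjoinRoot.of f a) (AdjoinRoot.of f c')
        (MvPolynomial.map (AdjoinRoot.of f) m1) (MvPolynomial.map (AdjoinRoot.of f) m2)
        (MvPolynomial.map (AdjoinRoot.of f) h))) = _ := key
  rw [key2]
  refine typeA hP hQ hτ hK _ _ (td_lin _ ?_) (td_quad _ (totalDegree_map' _ h1)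
    (totalDegree_map' _ hh))
  refine (totalDegree_add _ _).trans (max_le (totalDegree_map' _ h2) ?_)
  refine (totalDegree_mul _ _).trans ?_
  have := totalDegree_map' (AdjoinRoot.of f) h1
  rw [totalDegree_C]; omega

/-- The unit case with one variable. -/
theorem unit1 (hP : IsNice0 p P) (hI : InDim p P d) {S τ : Type} [CommRing S] [Fintype τ]
    [IsEmpty τ] (hS : K p d S) (c : S) (hc : IsUnit c) (l h : MvPolynomial τ S) :
    P (MvPolynomial (Option τ) S ⧸
      Ideal.span {C c * X none ^ 2 + rename some l * X none + rename some h}) := by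
  obtain ⟨u, rfl⟩ := hc
  refine transport1 hP (optionEquivLeft S τ).toRingEquiv _ ?_
  have key : (optionEquivLeft S τ).toRingEquiv
      (C (u : S) * X none ^ 2 + rename some l * X none + rename some h) = _ :=
    equivLeft_quad (u : S) l h
  rw [key]
  have hB : K p d (MvPolynomial τ S) := by
    refine ⟨fg_mv hS.1 τ, ?_⟩
    rw [ringKrullDim_mvPolynomial_of_isEmpty]
    exact hS.2
  set f : Polynomial (MvPolynomial τ S) := Polynomial.X ^ 2 +
    Polynomial.C (C ((u⁻¹ : Sˣ) : S) * l) * Polynomial.X +
    Polynomial.C (C ((u⁻¹ : Sˣ) : S) * h) with hf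
  have hmon : f.Monic := by
    rw [hf]
    exact monic2 _ _
  have h1 : P (AdjoinRoot f) := hI _ (hB.root hmon).1 (hB.root hmon).2
  refine quot_eq (I := Ideal.span {f}) ?_ h1
  have h2 : (C (u : S) * C ((u⁻¹ : Sˣ) : S) : MvPolynomial τ S) = 1 := by
    rw [← C_mul]; simp
  have h3 : Polynomial.C (C (u : S)) * f = Polynomial.C (C (u : S)) * Polynomial.X ^ 2 +
      Polynomial.C l * Polynomial.X + Polynomial.C h := by
    have h4 : (Polynomial.C (C (u : S)) * Polynomial.C (C ((u⁻¹ : Sˣ) : S)) :
        Polynomial (MvPolynomial τ S)) = 1 := by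
      rw [← Polynomial.C_mul, h2, Polynomial.C_1]
    rw [hf, Polynomial.C_mul, Polynomial.C_mul]
    linear_combination (Polynomial.C l * Polynomial.X + Polynomial.C h) * h4
  rw [← h3]
  symm
  refine Ideal.span_singleton_mul_left_unit ?_ _
  refine IsUnit.map Polynomial.C (IsUnit.map C u.isUnit)

/-- One more variable. -/
theorem step (hP : IsNice0 p P) (hI : InDim p P d) {n : ℕ} (hQ : Q p d P n) {R τ : Type}
    [CommRing R] [Fintype τ] (hτ : Fintype.card τ ≤ n) (hR : K p d R)
    (g : MvPolynomial (Option τ) R) (hg : g.totalDegree ≤ 2) :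
    P (MvPolynomial (Option τ) R ⧸ Ideal.span {g}) := by
  classical
  obtain ⟨c, l, h, hl, hh, rfl⟩ := decomp2 hg
  refine split_fin hP 1 R (Option τ) (fun _ => c) hR _ ?_
  intro S _ f hS hf
  have hl' := totalDegree_map' f hl
  have hh' := totalDegree_map' f hh
  refine quot_eq (map_singleton _ _).symm ?_
  have hm : MvPolynomial.map f (C c * X none ^ 2 + rename some l * X none + rename some h) =
      C (f c) * X none ^ 2 + rename some (MvPolynomial.map f l) * X none +
        rename some (MvPolynomial.map f h) := by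
    simp only [map_add, map_mul, map_pow, map_rename, map_C, map_X]
  rw [hm]
  rcases hf 0 with h0 | h0
  · refine transport1 hP (optionEquivLeft S τ).toRingEquiv _ ?_
    have key : (optionEquivLeft S τ).toRingEquiv
        (C (f c) * X none ^ 2 + rename some (MvPolynomial.map f l) * X none +
          rename some (MvPolynomial.map f h)) = Polynomial.C (MvPolynomial.map f l) *
            Polynomial.X + Polynomial.C (MvPolynomial.map f h) := by
      refine (equivLeft_quad _ _ _).trans ?_
      rw [h0]; simp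
    rw [key]
    exact typeA hP hQ hτ hS _ _ hl' hh'
  · rcases isEmpty_or_nonempty τ with he | ⟨⟨k⟩⟩
    · exact unit1 hP hI hS _ h0 _ _
    · let e : τ ≃ Option {j // j ≠ k} := (Equiv.optionSubtypeNe k).symm
      have h1 : (rename e (MvPolynomial.map f l)).totalDegree ≤ 1 :=
        (totalDegree_rename_le _ _).trans hl'
      have h2 : (rename e (MvPolynomial.map f h)).totalDegree ≤ 2 :=
        (totalDegree_rename_le _ _).trans hh'
      obtain ⟨m1, hm1, hl3⟩ := decomp1 h1
      obtain ⟨c', m2, h3, hm2, hh3, hh4⟩ := decomp2 h2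
      refine transport1 hP (renameEquiv S (Equiv.optionCongr e)).toRingEquiv _ ?_
      have key : (renameEquiv S (Equiv.optionCongr e)).toRingEquiv
          (C (f c) * X none ^ 2 + rename some (MvPolynomial.map f l) * X none +
            rename some (MvPolynomial.map f h)) =
          quad2 (f c) ((rename e (MvPolynomial.map f l)).coeff (Finsupp.single none 1)) c'
            m1 m2 h3 := by
        rw [quad2, ← hl3, ← hh4]
        change rename (Equiv.optionCongr e) _ = _
        simp only [map_add, map_mul, map_pow, rename_X, rename_C, rename_rename]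
        rfl
      rw [key]
      have hcard : Fintype.card (Option {j // j ≠ k}) ≤ n := by
        rw [← Fintype.card_congr e]; exact hτ
      exact unit2 hP hQ hcard hS _ _ _ h0 _ _ _ hm1 hm2 hh3

/-- All numbers of variables. -/
theorem main_Q (hP : IsNice0 p P) (hI : InDim p P d) (n : ℕ) : Q p d P n := by
  classical
  induction n with
  | zero =>
    intro R σ _ _ hσ hR g _
    have he : IsEmpty σ := Fintype.card_eq_zero_iff.mp (Nat.le_zero.mp hσ)
    have hB : K p d (MvPolynomial σ R) := by
      refine ⟨fg_mv hR.1 σ, ?_⟩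
      rw [ringKrullDim_mvPolynomial_of_isEmpty]
      exact hR.2
    exact hI _ (hB.quot _).1 (hB.quot _).2
  | succ n ih =>
    intro R σ _ _ hσ hR g hg
    rcases isEmpty_or_nonempty σ with he | ⟨⟨k⟩⟩
    · exact ih R σ (by rw [Fintype.card_eq_zero]; exact Nat.zero_le _) hR g hg
    · let e : σ ≃ Option {j // j ≠ k} := (Equiv.optionSubtypeNe k).symm
      refine transport1 hP (renameEquiv R e).toRingEquiv _ ?_
      have hcard : Fintype.card {j // j ≠ k} ≤ n := by
        have := Fintype.card_congr e
        rw [Fintype.card_option] at this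
        omega
      exact step hP hI ih hcard hR _ ((totalDegree_rename_le _ _).trans hg)

/-- Quadratic equations over rings of dimension at most `d`. -/
theorem quadratic (hP : IsNice0 p P) (hI : InDim p P d) (R σ : Type) [CommRing R] [Finite σ]
    (hR : Fg p R) (hd : ringKrullDim R ≤ d) (g : MvPolynomial σ R) (hg : g.totalDegree ≤ 2) :
    P (MvPolynomial σ R ⧸ Ideal.span {g}) := by
  have := Fintype.ofFinite σ
  exact main_Q hP hI (Fintype.card σ) R σ le_rfl ⟨hR, hd⟩ g hg

end

end Pool.Agent.W2helper42.TQ
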