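import Pool.Agent.W2helper42.TQ.EmDefs
import Pool.Agent.W495.FM.HomDefs

/-!
# Motivic and `ℓ`-adic homology of all separated schemes of finite type over a finite prime field
-/

set_option autoImplicit false

namespace Pool.Agent.W2helper42.TQ

open AlgebraicGeometry CategoryTheory

noncomputable section

/-- Data of motivic and `ℓ`-adic homology of the schemes `X` over the field with `p` elements: the
motivic homology `M X i j = H_i^M(X, ℚ(j))`, the `ℓ`-adic homology `E X i j = H_i(X, ℚ_ℓ(j)) ⊗ Ω` over
the algebraic closure, the operation `frob` of the Frobenius on it, and the regulator `reg`. -/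
structure Theory (Ω : Type) [Field Ω] where
  M : Scheme.{0} → ℤ → ℤ → Type
  [mgrp : ∀ X i j, AddCommGroup (M X i j)]
  [mmod : ∀ X i j, Module ℚ (M X i j)]
  E : Scheme.{0} → ℤ → ℤ → Type
  [egrp : ∀ X i j, AddCommGroup (E X i j)]
  [emod : ∀ X i j, Module Ω (E X i j)]
  frob : ∀ X i j, E X i j → E X i j
  reg : ∀ X i j, M X i j → E X i j

attribute [instance] Theory.mgrp Theory.mmod Theory.egrp Theory.emod

variable {Ω : Type} [Field Ω]

/-- The restriction of the theory to a family of schemes. -/
def Theory.on (T : Theory Ω) {V : Type} (f : V → Scheme.{0}) : W495.FM.Homology Ω V where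
  M v := T.M (f v)
  E v := T.E (f v)
  frob v := T.frob (f v)
  reg v := T.reg (f v)

/-- Jannsen's conjecture for the scheme `X`. -/
def Theory.TB (T : Theory Ω) (X : Scheme.{0}) : Prop := W495.FM.TB (T.on fun _ : Unit => X) ()

/-- The motive of `X` is a direct summand of the motive of `Y`, twisted `r` times. -/
def Theory.Summand (T : Theory Ω) (X Y : Scheme.{0}) (r : ℤ) : Prop :=
  W495.FM.IsSummandOf (I := Unit) (T.on ![X, Y]) 0 (fun _ => 1) fun _ => r

/-- The known properties of motivic and `ℓ`-adic homology that are used, for separated schemes `X` of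
finite type over the field with `p` elements (`FT p X`):
* `hom`: the `ℓ`-adic groups are finite-dimensional, the regulator has invariant values;
* `iso`: isomorphic schemes have isomorphic groups;
* `loc`: the localisation sequences of a closed subscheme and its open complement;
* `line`, `line'`: `H_i(A^1_X, ℚ(j)) = H_(i-2)(X, ℚ(j-1))`;
* `double`: if `Y = Spec R[t] / (t ^ 2 + b t + c)` then the motive of `X = Spec R` is a direct summand of
  that of `Y`, by pull-back and half the push-forward;
* `curves`: the conjecture is true in dimension at most one. -/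
structure IsTheory (p : ℕ) (T : Theory Ω) : Prop where
  hom : ∀ X : Scheme.{0}, FT p X → W495.FM.IsHomology (T.on fun _ : Unit => X)
  iso : ∀ X Y : Scheme.{0}, FT p X → (X ≅ Y) → T.Summand Y X 0
  loc : ∀ Z X U : Scheme.{0}, Triple Z X U → FT p X → W495.FM.IsTriple (T.on ![Z, X, U]) 0 1 2
  line : ∀ (R : Type) [CommRing R], Fg p R → T.Summand (Sp (Polynomial R)) (Sp R) (-1)
  line' : ∀ (R : Type) [CommRing R], Fg p R → T.Summand (Sp R) (Sp (Polynomial R)) 1
  double : ∀ (R : Type) [CommRing R] (b c : R), Fg p R → T.Summand (Sp R) (Db R b c) 0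
  curves : ∀ X : Scheme.{0}, FT p X → topologicalKrullDim X ≤ 1 → T.TB X

end

end Pool.Agent.W2helper42.TQ
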