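import Pool.Agent.W2helper42.TQ.TbDefs
import Pool.Agent.W2helper42.TQ.Bundle

/-!
# Motivic and `ℓ`-adic homology: affine bundles
-/

set_option autoImplicit false

namespace Pool.Agent.W2helper42.TQ

open AlgebraicGeometry CategoryTheory

noncomputable section

variable {Ω : Type} [Field Ω]

/-- The known properties of motivic and `ℓ`-adic homology that are used, for separated schemes `X` of
finite type over the field with `p` elements (`FT p X`):
* `hom`: the `ℓ`-adic groups are finite-dimensional, the regulator has invariant values;
* `iso`: isomorphic schemes have isomorphic groups;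
* `loc`: the localisation sequences of a closed subscheme and its open complement;
* `bundle`: `H_i(C, ℚ(j)) = H_(i-2m)(U, ℚ(j-m))` for a Zariski locally trivial fibration of `C` over
  `U` with fibres affine spaces of dimension `m`;
* `point`: the conjecture is true for the point. -/
structure IsTheoryB (p : ℕ) (T : Theory Ω) : Prop where
  hom : ∀ X : Scheme.{0}, FT p X → W495.FM.IsHomology (T.on fun _ : Unit => X)
  iso : ∀ X Y : Scheme.{0}, FT p X → (X ≅ Y) → T.Summand Y X 0
  loc : ∀ Z X U : Scheme.{0}, Triple Z X U → FT p X → W495.FM.IsTriple (T.on ![Z, X, U]) 0 1 2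
  bundle : ∀ (C U : Scheme.{0}) (m : ℕ), IsAffBundle C U m → FT p U →
    T.Summand C U (-m) ∧ T.Summand U C m
  point : T.TB (Sp (ZMod p))

end

end Pool.Agent.W2helper42.TQ
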